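import Mathlib

/-! Pointwise algebra of the condition `R · A = 0`. -/

set_option autoImplicit false

namespace Pool.Agent.H61SP

section

variable {V : Type} [AddCommGroup V] [Module ℝ V] [FiniteDimensional ℝ V]

/-- A self-adjoint map for a positive definite form has a basis of eigenvectors. -/
theorem exists_eigenbasis (B : V →ₗ[ℝ] V →ₗ[ℝ] ℝ) (hs : ∀ u v, B u v = B v u)
    (hp : ∀ v, v ≠ 0 → 0 < B v v) (A : V →ₗ[ℝ] V) (hA : ∀ u v, B (A u) v = B u (A v)) :
    ∃ (b : Module.Basis (Fin (Module.finrank ℝ V)) ℝ V) (l : Fin (Module.finrank ℝ V) → ℝ),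
      ∀ i, A (b i) = l i • b i := by
  let core : InnerProductSpace.Core ℝ V :=
    { inner := fun u v => B u v
      conj_inner_symm := fun u v => by simp [hs u v]
      re_inner_nonneg := fun v => by
        by_cases h : v = 0
        · simp [h]
        · exact (hp v h).le
      definite := fun v h => by
        by_contra hv
        exact (hp v hv).ne' h
      add_left := fun u v w => by simp
      smul_left := fun u v r => by simp }
  letI : NormedAddCommGroup V := core.toNormedAddCommGroup
  letI : InnerProductSpace ℝ V := InnerProductSpace.ofCore core.toCore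
  have hsym : A.IsSymmetric := fun u v => hA u v
  refine ⟨(hsym.eigenvectorBasis rfl).toBasis, hsym.eigenvalues rfl, fun i => ?_⟩
  have := hsym.apply_eigenvectorBasis rfl i
  simpa using this

end

section

variable {V : Type} [AddCommGroup V] [Module ℝ V] [FiniteDimensional ℝ V]
  (B : V →ₗ[ℝ] V →ₗ[ℝ] ℝ) (A φ : V →ₗ[ℝ] V) (c : ℝ)

/-- The curvature operator given by the Gauss equation. -/
def Rg (X Y Z : V) : V :=
  c • (B Y Z • X - B X Z • Y + B (φ Y) Z • φ X - B (φ X) Z • φ Y - (2 * B (φ X) Y) • φ Z) +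
    (B (A Y) Z • A X - B (A X) Z • A Y)

variable {B A φ c}

theorem eq_zero_of_orth (hp : ∀ v, v ≠ 0 → 0 < B v v) {x : V} (h : B x x = 0) : x = 0 := by
  by_contra hx
  exact (hp x hx).ne' h

theorem Rg_eq_zero (hs : ∀ u v, B u v = B v u) (hp : ∀ v, v ≠ 0 → 0 < B v v)
    (hA : ∀ u v, B (A u) v = B u (A v)) (hφ : ∀ u v, B (φ u) v = -B u (φ v))
    (hR : ∀ X Y Z, Rg B A φ c X Y (A Z) = A (Rg B A φ c X Y Z)) {Z U : V} {l m : ℝ}
    (hZ : A Z = l • Z) (hU : A U = m • U) (hlm : l ≠ m) (X : V) :
    (c + l * m) • (B U X • Z - B Z X • U) +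
      c • (B (φ U) X • φ Z - B (φ Z) X • φ U - (2 * B (φ Z) U) • φ X) = 0 := by
  have h1 : ∀ X Y, B (Rg B A φ c X Y Z) U = 0 := by
    intro X Y
    have h2 : B (Rg B A φ c X Y (A Z)) U = B (A (Rg B A φ c X Y Z)) U := by rw [hR X Y Z]
    rw [hA, hU, hZ] at h2
    have h3 : Rg B A φ c X Y (l • Z) = l • Rg B A φ c X Y Z := by
      simp only [Rg, map_smul, smul_eq_mul]
      module
    rw [h3, map_smul, LinearMap.smul_apply, map_smul, smul_eq_mul, smul_eq_mul] at h2
    have h4 : (l - m) * B (Rg B A φ c X Y Z) U = 0 := by linarith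
    rcases mul_eq_zero.1 h4 with h | h
    · exact absurd (sub_eq_zero.1 h) hlm
    · exact h
  have h5 : (c + l * m) • (B U X • Z - B Z X • U) +
      c • (B (φ U) X • φ Z - B (φ Z) X • φ U - (2 * B (φ Z) U) • φ X) = Rg B A φ c Z U X := by
    simp only [Rg, hZ, hU, map_smul, LinearMap.smul_apply, smul_eq_mul]
    module
  rw [h5]
  apply eq_zero_of_orth hp
  have hφ' : ∀ u v, B (φ u) v = -B (φ v) u := fun u v => by rw [hφ, hs]
  have hA' : ∀ u v, B (A u) v = B (A v) u := fun u v => by rw [hA, hs]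
  have key : ∀ T, B (Rg B A φ c Z U X) T = B (Rg B A φ c X T Z) U := by
    intro T
    simp only [Rg, map_add, map_sub, map_smul, LinearMap.add_apply, LinearMap.sub_apply,
      LinearMap.smul_apply, smul_eq_mul]
    rw [hs T Z, hs X U, hs X Z, hs T U, hφ' T Z, hφ' X U, hφ' X Z, hφ' T U, hA' T Z, hA' X U,
      hA' X Z, hA' T U]
    ring
  rw [key, h1]

/-- Different eigenspaces are `φ`-orthogonal. -/
theorem phi_orth (hc : c ≠ 0) (hs : ∀ u v, B u v = B v u) (hp : ∀ v, v ≠ 0 → 0 < B v v)
    (hA : ∀ u v, B (A u) v = B u (A v)) (hφ : ∀ u v, B (φ u) v = -B u (φ v))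
    {W : V} (hW : B W W = 1) (hφW : φ W = 0) (hφφ : ∀ v, φ (φ v) = -v + B W v • W)
    (hR : ∀ X Y Z, Rg B A φ c X Y (A Z) = A (Rg B A φ c X Y Z)) {Z U : V} {l m : ℝ}
    (hZ : A Z = l • Z) (hU : A U = m • U) (hlm : l ≠ m) : B (φ Z) U = 0 := by
  by_contra hk
  set k := B (φ Z) U with hkdef
  have hφ' : ∀ u v, B (φ u) v = -B (φ v) u := fun u v => by rw [hφ, hs]
  have hφs : ∀ u, B (φ u) u = 0 := fun u => by linarith [hφ' u u]
  have hZU : B Z U = 0 := by
    have h1 : B (A Z) U = B Z (A U) := hA Z U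
    rw [hZ, hU, map_smul, map_smul, LinearMap.smul_apply, smul_eq_mul, smul_eq_mul] at h1
    have h2 : (l - m) * B Z U = 0 := by linarith
    rcases mul_eq_zero.1 h2 with h | h
    · exact absurd (sub_eq_zero.1 h) hlm
    · exact h
  have hUZ : B U Z = 0 := by rw [hs]; exact hZU
  have key := Rg_eq_zero (c := c) hs hp hA hφ hR hZ hU hlm
  have e1 := key Z
  have e2 := key U
  rw [hUZ, hφs Z, hφ' U Z, ← hkdef] at e1
  rw [hZU, hφs U, ← hkdef] at e2
  have hck : 3 * c * k ≠ 0 := by positivity
  -- `φ Z` is a multiple of `U` and conversely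
  have f1 : φ Z = (-(c + l * m) * B Z Z / (3 * c * k)) • U := by
    have h1 : (3 * c * k) • φ Z = (-(c + l * m) * B Z Z) • U := by
      have h2 : (3 * c * k) • φ Z - (-(c + l * m) * B Z Z) • U =
        -((c + l * m) • ((0 : ℝ) • Z - B Z Z • U) + c • (-k • φ Z - (0 : ℝ) • φ U - (2 * k) • φ Z)) := by
        module
      rw [← sub_eq_zero, h2, e1, neg_zero]
    rw [div_eq_inv_mul, mul_smul, ← h1, smul_smul, inv_mul_cancel₀ hck, one_smul]
  have f2 : φ U = ((c + l * m) * B U U / (3 * c * k)) • Z := by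
    have h1 : (3 * c * k) • φ U = ((c + l * m) * B U U) • Z := by
      have h2 : (3 * c * k) • φ U - ((c + l * m) * B U U) • Z =
        -((c + l * m) • (B U U • Z - (0 : ℝ) • U) + c • ((0 : ℝ) • φ Z - k • φ U - (2 * k) • φ U)) := by
        module
      rw [← sub_eq_zero, h2, e2, neg_zero]
    rw [div_eq_inv_mul, mul_smul, ← h1, smul_smul, inv_mul_cancel₀ hck, one_smul]
  set t := -(c + l * m) * B Z Z / (3 * c * k) with ht
  set r := (c + l * m) * B U U / (3 * c * k) with hr
  have hφZ0 : φ Z ≠ 0 := by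
    intro h
    apply hk
    rw [hkdef, h, map_zero, LinearMap.zero_apply]
  have hφU0 : φ U ≠ 0 := by
    intro h
    apply hk
    rw [hkdef, hφ' Z U, h, map_zero, LinearMap.zero_apply, neg_zero]
  -- `Z` and `U` are orthogonal to `W`
  have hWZ : B W Z = 0 := by
    by_contra h
    have h1 := hφφ Z
    rw [f1, map_smul, f2, smul_smul] at h1
    have h2 : B W Z • W = (t * r + 1) • Z := by
      rw [add_smul, one_smul, h1]
      abel
    have h3 : W = ((B W Z)⁻¹ * (t * r + 1)) • Z := by
      rw [mul_smul, ← h2, smul_smul, inv_mul_cancel₀ h, one_smul]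
    have h4 : ((B W Z)⁻¹ * (t * r + 1)) • φ Z = 0 := by
      rw [← map_smul, ← h3, hφW]
    rcases smul_eq_zero.1 h4 with h5 | h5
    · rw [h5, zero_smul] at h3
      rw [h3] at hW
      simp at hW
    · exact hφZ0 h5
  have hWU : B W U = 0 := by
    by_contra h
    have h1 := hφφ U
    rw [f2, map_smul, f1, smul_smul] at h1
    have h2 : B W U • W = (r * t + 1) • U := by
      rw [add_smul, one_smul, h1]
      abel
    have h3 : W = ((B W U)⁻¹ * (r * t + 1)) • U := by
      rw [mul_smul, ← h2, smul_smul, inv_mul_cancel₀ h, one_smul]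
    have h4 : ((B W U)⁻¹ * (r * t + 1)) • φ U = 0 := by
      rw [← map_smul, ← h3, hφW]
    rcases smul_eq_zero.1 h4 with h5 | h5
    · rw [h5, zero_smul] at h3
      rw [h3] at hW
      simp at hW
    · exact hφU0 h5
  -- nothing is orthogonal to `Z`, `U`, `W`
  have horth : ∀ v, B Z v = 0 → B U v = 0 → B W v = 0 → v = 0 := by
    intro v h1 h2 h3
    have h4 := key v
    have h5 : B (φ U) v = 0 := by rw [f2, map_smul, LinearMap.smul_apply, h1, smul_zero]
    have h6 : B (φ Z) v = 0 := by rw [f1, map_smul, LinearMap.smul_apply, h2, smul_zero]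
    rw [h1, h2, h5, h6, ← hkdef] at h4
    have h7 : (2 * c * k) • φ v = 0 := by
      have h8 : (2 * c * k) • φ v = -((c + l * m) • ((0 : ℝ) • Z - (0 : ℝ) • U) +
          c • ((0 : ℝ) • φ Z - (0 : ℝ) • φ U - (2 * k) • φ v)) := by module
      rw [h8, h4, neg_zero]
    have h8 : φ v = 0 := by
      rcases smul_eq_zero.1 h7 with h | h
      · exact absurd h (by positivity)
      · exact h
    have h9 := hφφ v
    rw [h8, map_zero, h3, zero_smul, add_zero] at h9
    exact neg_eq_zero.1 h9.symm
  -- `W` is an eigenvector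
  set a := B (A W) W with ha
  have hAW : A W = a • W := by
    rw [← sub_eq_zero]
    apply horth
    · rw [map_sub, map_smul, hs Z W, hWZ, smul_zero, sub_zero, ← hA, hZ, map_smul,
        LinearMap.smul_apply, hs Z W, hWZ, smul_zero]
    · rw [map_sub, map_smul, hs U W, hWU, smul_zero, sub_zero, ← hA, hU, map_smul,
        LinearMap.smul_apply, hs U W, hWU, smul_zero]
    · rw [map_sub, map_smul, hW, ← hA, ha, smul_eq_mul, mul_one, sub_self]
  -- the product of the eigenvalues is `-4c`
  have hprod : l * m = -4 * c := by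
    have g1 : k = t * B U U := by rw [hkdef, f1, map_smul, LinearMap.smul_apply, smul_eq_mul]
    have g2 : B (φ Z) (φ Z) = B Z Z := by
      rw [hφ, hφφ, map_add, map_neg, map_smul, hs Z W, hWZ, smul_zero, add_zero, neg_neg]
    have g3 : B (φ Z) (φ Z) = t * k := by
      have h1 : B (φ Z) (φ Z) = B (φ Z) (t • U) := by rw [← f1]
      rw [h1, map_smul, smul_eq_mul]
    have g4 : k ^ 2 = B Z Z * B U U := by
      rw [← g2, g3]
      calc k ^ 2 = k * k := by ring
        _ = k * (t * B U U) := by rw [← g1]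
        _ = t * k * B U U := by ring
    have hUU : B U U ≠ 0 := by
      intro h
      rw [g1, h, mul_zero] at hk
      exact hk rfl
    have g5 : t * (3 * c * k) = -(c + l * m) * B Z Z := by
      rw [ht, div_mul_cancel₀ _ hck]
    have g6 : 3 * c * k ^ 2 = -(c + l * m) * (B Z Z * B U U) := by
      calc 3 * c * k ^ 2 = 3 * c * k * k := by ring
        _ = 3 * c * k * (t * B U U) := by rw [← g1]
        _ = (t * (3 * c * k)) * B U U := by ring
        _ = -(c + l * m) * (B Z Z * B U U) := by rw [g5]; ring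
    rw [← g4] at g6
    have hk2 : k ^ 2 ≠ 0 := pow_ne_zero 2 hk
    have g7 : (3 * c + (c + l * m)) * k ^ 2 = 0 := by linarith
    rcases mul_eq_zero.1 g7 with h | h
    · linarith
    · exact absurd h hk2
  -- the eigenvalue of `W`
  have hZ0 : Z ≠ 0 := by
    rintro rfl
    exact hφZ0 (map_zero φ)
  have hU0 : U ≠ 0 := by
    rintro rfl
    exact hφU0 (map_zero φ)
  have heig : ∀ (T : V) (s : ℝ), T ≠ 0 → B W T = 0 → A T = s • T → s ≠ a → s * a = -c := by
    intro T s hT0 hWT hT hsa
    have h1 := Rg_eq_zero (c := c) hs hp hA hφ hR hT hAW hsa W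
    have h2 : B (φ T) W = 0 := by rw [hφ, hφW, map_zero, neg_zero]
    rw [hW, hs T W, hWT, hφW, h2, map_zero, LinearMap.zero_apply] at h1
    have h3 : (c + s * a) • T = 0 := by
      have h4 : (c + s * a) • T = (c + s * a) • ((1 : ℝ) • T - (0 : ℝ) • W) +
          c • ((0 : ℝ) • φ T - (0 : ℝ) • (0 : V) - (2 * (0 : ℝ)) • (0 : V)) := by
        rw [smul_zero, smul_zero]
        module
      rw [h4]
      exact h1
    rcases smul_eq_zero.1 h3 with h | h
    · linarith
    · exact absurd h hT0
  rcases eq_or_ne l a with hla | hla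
  · have h1 := heig U m hU0 hWU hU (by rw [← hla]; exact hlm.symm)
    rw [← hla] at h1
    have : c = 0 := by nlinarith
    exact hc this
  · have h1 := heig Z l hZ0 hWZ hZ hla
    rcases eq_or_ne m a with hma | hma
    · rw [← hma] at h1
      have : c = 0 := by linarith
      exact hc this
    · have h2 := heig U m hU0 hWU hU hma
      have h3 : (l - m) * a = 0 := by linarith
      rcases mul_eq_zero.1 h3 with h | h
      · exact hlm (sub_eq_zero.1 h)
      · rw [h, mul_zero] at h1
        exact hc (by linarith)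

/-- The shape operator of a semi-parallel hypersurface at a point. -/
theorem shape_form (hc : c ≠ 0) (hs : ∀ u v, B u v = B v u) (hp : ∀ v, v ≠ 0 → 0 < B v v)
    (hA : ∀ u v, B (A u) v = B u (A v)) (hφ : ∀ u v, B (φ u) v = -B u (φ v))
    {W : V} (hW : B W W = 1) (hφW : φ W = 0) (hφφ : ∀ v, φ (φ v) = -v + B W v • W)
    (hR : ∀ X Y Z, Rg B A φ c X Y (A Z) = A (Rg B A φ c X Y Z)) :
    ∃ a m : ℝ, A W = a • W ∧ (∀ v, B W v = 0 → A v = m • v) ∧ (a - m) * (a * m + c) = 0 := by
  obtain ⟨b, l, hb⟩ := exists_eigenbasis B hs hp A hA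
  have hφ' : ∀ u v, B (φ u) v = -B (φ v) u := fun u v => by rw [hφ, hs]
  have hφs : ∀ u, B (φ u) u = 0 := fun u => by linarith [hφ' u u]
  -- `A` commutes with `φ`
  have hcomm : ∀ v, A (φ v) = φ (A v) := by
    have h1 : A ∘ₗ φ = φ ∘ₗ A := by
      refine b.ext fun i => ?_
      rw [LinearMap.comp_apply, LinearMap.comp_apply, ← sub_eq_zero]
      apply eq_zero_of_orth hp
      have h2 : ∀ j, B (A (φ (b i)) - φ (A (b i))) (b j) = 0 := by
        intro j
        rw [map_sub, LinearMap.sub_apply, hA, hb, hb, map_smul, map_smul, map_smul,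
          LinearMap.smul_apply, smul_eq_mul, smul_eq_mul]
        rcases eq_or_ne (l i) (l j) with h | h
        · rw [h]; ring
        · rw [phi_orth hc hs hp hA hφ hW hφW hφφ hR (hb i) (hb j) h]; ring
      have h3 : B (A (φ (b i)) - φ (A (b i))) = 0 := b.ext fun j => by
        rw [h2 j, LinearMap.zero_apply]
      rw [h3, LinearMap.zero_apply]
    intro v
    exact LinearMap.congr_fun h1 v
  set a := B (A W) W with ha
  have hAW : A W = a • W := by
    have h1 := hφφ (A W)
    rw [← hcomm, hφW, map_zero, map_zero, ← hA W W, ← ha] at h1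
    have h2 : A W = a • W - (-A W + a • W) := by abel
    rw [h2, ← h1, sub_zero]
  -- eigenvectors orthogonal to `W`
  have huniq : ∀ (Z U : V) (s t : ℝ), B W Z = 0 → B W U = 0 → Z ≠ 0 → U ≠ 0 → A Z = s • Z →
      A U = t • U → s = t := by
    intro Z U s t hWZ hWU hZ0 hU0 hZ hU
    by_contra hst
    have hk := phi_orth hc hs hp hA hφ hW hφW hφφ hR hZ hU hst
    have hZU : B Z U = 0 := by
      have h1 : B (A Z) U = B Z (A U) := hA Z U
      rw [hZ, hU, map_smul, map_smul, LinearMap.smul_apply, smul_eq_mul, smul_eq_mul] at h1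
      have h2 : (s - t) * B Z U = 0 := by linarith
      rcases mul_eq_zero.1 h2 with h | h
      · exact absurd (sub_eq_zero.1 h) hst
      · exact h
    have h1 := Rg_eq_zero (c := c) hs hp hA hφ hR hZ hU hst (φ U)
    have h2 : B (φ U) (φ U) = B U U := by
      rw [hφ, hφφ, map_add, map_neg, map_smul, hs U W, hWU, smul_zero, add_zero, neg_neg]
    have h3 : B (φ Z) (φ U) = 0 := by
      rw [hφ, hφφ, map_add, map_neg, map_smul, hs Z W, hWZ, smul_zero, add_zero, neg_neg, hZU]
    have h4 : B U (φ U) = 0 := by rw [hs]; exact hφs U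
    have h5 : B Z (φ U) = 0 := by rw [hs, hφ', hk, neg_zero]
    rw [h2, h3, h4, h5, hk] at h1
    have h6 : (c * B U U) • φ Z = 0 := by
      have h7 : (c * B U U) • φ Z = (c + s * t) • ((0 : ℝ) • Z - (0 : ℝ) • U) +
          c • (B U U • φ Z - (0 : ℝ) • φ U - (2 * (0 : ℝ)) • φ (φ U)) := by module
      rw [h7]
      exact h1
    have h7 : φ Z = 0 := by
      rcases smul_eq_zero.1 h6 with h | h
      · exact absurd h (mul_ne_zero hc (hp U hU0).ne')
      · exact h
    have h8 := hφφ Z
    rw [h7, map_zero, hWZ, zero_smul, add_zero] at h8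
    exact hZ0 (neg_eq_zero.1 h8.symm)
  -- projections of the basis
  have hproj : ∀ i, A (b i - B W (b i) • W) = l i • (b i - B W (b i) • W) := by
    intro i
    have h1 : a * B W (b i) = l i * B W (b i) := by
      have h2 : B (A W) (b i) = B W (A (b i)) := hA W (b i)
      rw [hAW, hb, map_smul, map_smul, LinearMap.smul_apply, smul_eq_mul, smul_eq_mul] at h2
      exact h2
    rw [map_sub, map_smul, hAW, hb, smul_sub, smul_smul, smul_smul, mul_comm _ a, h1]
  have hprojW : ∀ v, B W (v - B W v • W) = 0 := by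
    intro v
    rw [map_sub, map_smul, hW, smul_eq_mul, mul_one, sub_self]
  by_cases hall : ∀ i, b i - B W (b i) • W = 0
  · refine ⟨a, a, hAW, fun v hv => ?_, by ring⟩
    have h1 : v = 0 := by
      have h2 : (LinearMap.id : V →ₗ[ℝ] V) = (B W).smulRight W := b.ext fun i => by
        rw [LinearMap.id_apply, LinearMap.smulRight_apply]
        exact sub_eq_zero.1 (hall i)
      have h3 := LinearMap.congr_fun h2 v
      rw [LinearMap.id_apply, LinearMap.smulRight_apply, hv, zero_smul] at h3
      exact h3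
    rw [h1, map_zero, smul_zero]
  · push Not at hall
    obtain ⟨i₀, hi₀⟩ := hall
    refine ⟨a, l i₀, hAW, fun v hv => ?_, ?_⟩
    · have h2 : A ∘ₗ (LinearMap.id - (B W).smulRight W) =
          l i₀ • (LinearMap.id - (B W).smulRight W) := b.ext fun i => by
        rw [LinearMap.comp_apply, LinearMap.smul_apply, LinearMap.sub_apply, LinearMap.id_apply,
          LinearMap.smulRight_apply]
        by_cases h : b i - B W (b i) • W = 0
        · rw [h, map_zero, smul_zero]
        · rw [hproj i, huniq _ _ _ _ (hprojW _) (hprojW _) h hi₀ (hproj i) (hproj i₀)]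
      have h3 := LinearMap.congr_fun h2 v
      rw [LinearMap.comp_apply, LinearMap.smul_apply, LinearMap.sub_apply, LinearMap.id_apply,
          LinearMap.smulRight_apply, hv, zero_smul, sub_zero] at h3
      exact h3
    · rcases eq_or_ne (l i₀) a with h | h
      · rw [h]; ring
      · set T := b i₀ - B W (b i₀) • W with hT
        have h1 := Rg_eq_zero (c := c) hs hp hA hφ hR (hproj i₀) hAW h W
        rw [← hT] at h1
        have h2 : B (φ T) W = 0 := by rw [hφ, hφW, map_zero, neg_zero]
        have h2' : B W T = 0 := hprojW _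
        rw [hW, hs T W, h2', hφW, h2, map_zero, LinearMap.zero_apply] at h1
        have h3 : (c + l i₀ * a) • T = 0 := by
          have h4 : (c + l i₀ * a) • T = (c + l i₀ * a) • ((1 : ℝ) • T - (0 : ℝ) • W) +
              c • ((0 : ℝ) • φ T - (0 : ℝ) • (0 : V) - (2 * (0 : ℝ)) • (0 : V)) := by
            rw [smul_zero, smul_zero]
            module
          rw [h4]
          exact h1
        rcases smul_eq_zero.1 h3 with h | h
        · have : a * l i₀ + c = 0 := by linarith
          rw [this, mul_zero]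
        · exact absurd h hi₀

end

end Pool.Agent.H61SP
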