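import Pool.Agent.H61SP.Defs

/-! The Bergman metric: Hermitian form, Levi-Civita connection and curvature along maps. -/

set_option autoImplicit false

open scoped ContDiff ComplexConjugate Topology

namespace Pool.Agent.H61SP

section form

variable {n : ℕ}

/-- the Hermitian form -/
noncomputable def hh (ζ u v : Cn n) : ℂ :=
  (((1 - ‖ζ‖ ^ 2 : ℝ) : ℂ) * inner ℂ u v + inner ℂ u ζ * inner ℂ ζ v) /
    (((1 - ‖ζ‖ ^ 2) ^ 2 : ℝ) : ℂ)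

/-- the Christoffel map -/
noncomputable def Gt (ζ u v : Cn n) : Cn n :=
  (((1 - ‖ζ‖ ^ 2)⁻¹ : ℝ) : ℂ) • ((inner ℂ ζ u : ℂ) • v + (inner ℂ ζ v : ℂ) • u)

theorem bergman_eq (c : ℝ) (ζ u v : Cn n) : bergman c ζ u v = (-1 / c) * (hh ζ u v).re := by
  unfold bergman hh
  rw [Complex.div_ofReal_re, Complex.add_re, Complex.re_ofReal_mul]

theorem hh_add_left (ζ u u' v : Cn n) : hh ζ (u + u') v = hh ζ u v + hh ζ u' v := by
  unfold hh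
  rw [inner_add_left, inner_add_left]
  ring

theorem hh_add_right (ζ u v v' : Cn n) : hh ζ u (v + v') = hh ζ u v + hh ζ u v' := by
  unfold hh
  rw [inner_add_right, inner_add_right]
  ring

theorem hh_smul_left (ζ u v : Cn n) (a : ℂ) : hh ζ (a • u) v = conj a * hh ζ u v := by
  unfold hh
  rw [inner_smul_left, inner_smul_left]
  ring

theorem hh_smul_right (ζ u v : Cn n) (a : ℂ) : hh ζ u (a • v) = a * hh ζ u v := by
  unfold hh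
  rw [inner_smul_right, inner_smul_right]
  ring

theorem hh_conj (ζ u v : Cn n) : conj (hh ζ u v) = hh ζ v u := by
  unfold hh
  rw [map_div₀, map_add, map_mul, map_mul, Complex.conj_ofReal, Complex.conj_ofReal,
    inner_conj_symm, inner_conj_symm, inner_conj_symm]
  ring

theorem Gt_symm (ζ u v : Cn n) : Gt ζ u v = Gt ζ v u := by
  unfold Gt
  rw [add_comm]

theorem Gt_add_right (ζ u v v' : Cn n) : Gt ζ u (v + v') = Gt ζ u v + Gt ζ u v' := by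
  unfold Gt
  rw [inner_add_right]
  module

theorem Gt_smul_right (ζ u v : Cn n) (a : ℂ) : Gt ζ u (a • v) = a • Gt ζ u v := by
  unfold Gt
  rw [inner_smul_right]
  module

theorem Gt_add_left (ζ u u' v : Cn n) : Gt ζ (u + u') v = Gt ζ u v + Gt ζ u' v := by
  rw [Gt_symm, Gt_add_right, Gt_symm ζ v u, Gt_symm ζ v u']

theorem Gt_smul_left (ζ u v : Cn n) (a : ℂ) : Gt ζ (a • u) v = a • Gt ζ u v := by
  rw [Gt_symm, Gt_smul_right, Gt_symm]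

/-- derivative of the Christoffel map in the base point -/
noncomputable def dGt (ζ z u v : Cn n) : Cn n :=
  ((((1 - ‖ζ‖ ^ 2)⁻¹ : ℝ) : ℂ) * inner ℂ z u +
    (((1 - ‖ζ‖ ^ 2)⁻¹ ^ 2 : ℝ) : ℂ) * ((2 * (inner ℂ ζ z : ℂ).re : ℝ) : ℂ) * inner ℂ ζ u) • v +
  ((((1 - ‖ζ‖ ^ 2)⁻¹ : ℝ) : ℂ) * inner ℂ z v +
    (((1 - ‖ζ‖ ^ 2)⁻¹ ^ 2 : ℝ) : ℂ) * ((2 * (inner ℂ ζ z : ℂ).re : ℝ) : ℂ) * inner ℂ ζ v) • u

/-- the curvature -/
noncomputable def Rt (ζ u v w : Cn n) : Cn n :=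
  (hh ζ u v - hh ζ v u) • w + hh ζ u w • v - hh ζ v w • u

theorem Rt_eq {ζ : Cn n} (h : ‖ζ‖ < 1) (u v w : Cn n) :
    dGt ζ u v w - dGt ζ v u w + Gt ζ u (Gt ζ v w) - Gt ζ v (Gt ζ u w) = Rt ζ u v w := by
  have hρ : (1 - ‖ζ‖ ^ 2 : ℝ) ≠ 0 := by nlinarith [norm_nonneg ζ]
  have hρ' : ((1 - ‖ζ‖ ^ 2 : ℝ) : ℂ) ≠ 0 := by exact_mod_cast hρ
  have hu : ((2 * (inner ℂ ζ u : ℂ).re : ℝ) : ℂ) = inner ℂ ζ u + inner ℂ u ζ := by
    rw [← inner_conj_symm u ζ, Complex.add_conj]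
  have hv : ((2 * (inner ℂ ζ v : ℂ).re : ℝ) : ℂ) = inner ℂ ζ v + inner ℂ v ζ := by
    rw [← inner_conj_symm v ζ, Complex.add_conj]
  unfold dGt Rt Gt hh
  rw [hu, hv]
  simp only [inner_add_right, inner_smul_right]
  push_cast
  set ρ : ℂ := ((1 : ℂ) - (‖ζ‖ : ℂ) ^ 2) with hρdef
  have hρ0 : ρ ≠ 0 := by
    rw [hρdef]
    have := hρ'
    push_cast at this
    exact this
  set a := (inner ℂ ζ u : ℂ)
  set b := (inner ℂ ζ v : ℂ)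
  set d := (inner ℂ ζ w : ℂ)
  set a' := (inner ℂ u ζ : ℂ)
  set b' := (inner ℂ v ζ : ℂ)
  set e := (inner ℂ u v : ℂ)
  set e' := (inner ℂ v u : ℂ)
  set f := (inner ℂ u w : ℂ)
  set g := (inner ℂ v w : ℂ)
  match_scalars <;> field_simp <;> ring

end form

section curves

variable {n : ℕ}

theorem hasDerivAt_rho {ζ : ℝ → Cn n} {ζ' : Cn n} {t : ℝ} (h : HasDerivAt ζ ζ' t) :
    HasDerivAt (fun s => (1 - ‖ζ s‖ ^ 2 : ℝ)) (-(2 * (inner ℂ (ζ t) ζ' : ℂ).re)) t := by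
  have h1 := h.inner ℂ h
  have h2 : HasDerivAt (fun s => (inner ℂ (ζ s) (ζ s) : ℂ).re)
      (inner ℂ (ζ t) ζ' + inner ℂ ζ' (ζ t) : ℂ).re t := Complex.reCLM.hasFDerivAt.comp_hasDerivAt t h1
  have h3 : (fun s => (1 - ‖ζ s‖ ^ 2 : ℝ)) = fun s => 1 - (inner ℂ (ζ s) (ζ s) : ℂ).re := by
    funext s
    rw [inner_self_eq_norm_sq_to_K]
    norm_cast
  rw [h3]
  have h4 := h2.const_sub 1
  refine HasDerivAt.congr_deriv h4 ?_
  rw [Complex.add_re, ← inner_conj_symm ζ' (ζ t), Complex.conj_re]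
  ring

theorem hasDerivAt_hh {ζ x y : ℝ → Cn n} {ζ' x' y' : Cn n} {t : ℝ} (hζ : HasDerivAt ζ ζ' t)
    (hx : HasDerivAt x x' t) (hy : HasDerivAt y y' t) (h : ‖ζ t‖ < 1) :
    HasDerivAt (fun s => hh (ζ s) (x s) (y s))
      (hh (ζ t) (x' + Gt (ζ t) ζ' (x t)) (y t) + hh (ζ t) (x t) (y' + Gt (ζ t) ζ' (y t))) t := by
  have hρ : (1 - ‖ζ t‖ ^ 2 : ℝ) ≠ 0 := by nlinarith [norm_nonneg (ζ t)]
  have h1 := hasDerivAt_rho hζ
  have h2 : HasDerivAt (fun s => (((1 - ‖ζ s‖ ^ 2 : ℝ)) : ℂ))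
      ((-(2 * (inner ℂ (ζ t) ζ' : ℂ).re) : ℝ) : ℂ) t :=
    Complex.ofRealCLM.hasFDerivAt.comp_hasDerivAt t h1
  have h3 := ((h2.fun_mul (hx.inner ℂ hy)).fun_add ((hx.inner ℂ hζ).fun_mul (hζ.inner ℂ hy))).fun_div
    (h2.fun_pow 2) (by
      have : (((1 - ‖ζ t‖ ^ 2 : ℝ)) : ℂ) ≠ 0 := by exact_mod_cast hρ
      exact pow_ne_zero 2 this)
  have h4 : (fun s => hh (ζ s) (x s) (y s)) = fun s =>
      (((1 - ‖ζ s‖ ^ 2 : ℝ) : ℂ) * inner ℂ (x s) (y s) + inner ℂ (x s) (ζ s) * inner ℂ (ζ s) (y s)) /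
        (((1 - ‖ζ s‖ ^ 2 : ℝ)) : ℂ) ^ 2 := by
    funext s
    unfold hh
    push_cast
    rfl
  rw [h4]
  refine HasDerivAt.congr_deriv h3 ?_
  have hρ' : ((1 - ‖ζ t‖ ^ 2 : ℝ) : ℂ) ≠ 0 := by exact_mod_cast hρ
  have hu : ((-(2 * (inner ℂ (ζ t) ζ' : ℂ).re) : ℝ) : ℂ) =
      -(inner ℂ (ζ t) ζ' + inner ℂ ζ' (ζ t)) := by
    rw [← inner_conj_symm ζ' (ζ t), Complex.add_conj]
    push_cast
    ring
  rw [hu]
  unfold hh Gt
  simp only [inner_add_right, inner_smul_right, inner_add_left, inner_smul_left, map_inv₀,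
    Complex.conj_ofReal, inner_conj_symm]
  push_cast
  set ρ : ℂ := ((1 : ℂ) - (‖ζ t‖ : ℂ) ^ 2) with hρdef
  have hρ0 : ρ ≠ 0 := by
    rw [hρdef]
    have := hρ'
    push_cast at this
    exact this
  field_simp
  ring

theorem hasDerivAt_Gt {ζ x y : ℝ → Cn n} {ζ' x' y' : Cn n} {t : ℝ} (hζ : HasDerivAt ζ ζ' t)
    (hx : HasDerivAt x x' t) (hy : HasDerivAt y y' t) (h : ‖ζ t‖ < 1) :
    HasDerivAt (fun s => Gt (ζ s) (x s) (y s))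
      (Gt (ζ t) x' (y t) + Gt (ζ t) (x t) y' + dGt (ζ t) ζ' (x t) (y t)) t := by
  have hρ : (1 - ‖ζ t‖ ^ 2 : ℝ) ≠ 0 := by nlinarith [norm_nonneg (ζ t)]
  have h1 := (hasDerivAt_rho hζ).fun_inv hρ
  have h2 : HasDerivAt (fun s => (((1 - ‖ζ s‖ ^ 2)⁻¹ : ℝ) : ℂ))
      ((-(-(2 * (inner ℂ (ζ t) ζ' : ℂ).re)) / (1 - ‖ζ t‖ ^ 2) ^ 2 : ℝ) : ℂ) t :=
    Complex.ofRealCLM.hasFDerivAt.comp_hasDerivAt t h1
  have h3 := h2.fun_smul (((hζ.inner ℂ hx).fun_smul hy).fun_add ((hζ.inner ℂ hy).fun_smul hx))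
  refine HasDerivAt.congr_deriv h3 ?_
  have hρ' : ((1 - ‖ζ t‖ ^ 2 : ℝ) : ℂ) ≠ 0 := by exact_mod_cast hρ
  unfold dGt Gt
  push_cast
  set ρ : ℂ := ((1 : ℂ) - (‖ζ t‖ : ℂ) ^ 2) with hρdef
  have hρ0 : ρ ≠ 0 := by
    rw [hρdef]
    have := hρ'
    push_cast at this
    exact this
  match_scalars <;> field_simp <;> ring

end curves

end Pool.Agent.H61SP
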