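import Pool.Agent.H61SP.Amb

/-! The Levi-Civita connection of the Bergman metric along a map. -/

set_option autoImplicit false

open scoped ContDiff ComplexConjugate Topology

namespace Pool.Agent.H61SP

section

variable {m n : ℕ}

/-- covariant derivative along a map. -/
noncomputable def cov (Ψ : (Fin m → ℝ) → Cn n) (v : Fin m → ℝ) (X : (Fin m → ℝ) → Cn n)
    (p : Fin m → ℝ) : Cn n :=
  fderiv ℝ X p v + Gt (Ψ p) (fderiv ℝ Ψ p v) (X p)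

theorem line_deriv {E : Type*} [NormedAddCommGroup E] [NormedSpace ℝ E] {F : (Fin m → ℝ) → E}
    {p : Fin m → ℝ} (h : DifferentiableAt ℝ F p) (v : Fin m → ℝ) :
    HasDerivAt (fun t : ℝ => F (p + t • v)) (fderiv ℝ F p v) 0 := by
  have h1 : HasDerivAt (fun t : ℝ => p + t • v) v 0 := by
    simpa using ((hasDerivAt_id (0:ℝ)).smul_const v).const_add p
  have h2 : HasFDerivAt F (fderiv ℝ F p) (p + (0:ℝ) • v) := by
    simpa using h.hasFDerivAt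
  exact h2.comp_hasDerivAt (0:ℝ) h1

theorem contDiffAt_Gt {Ψ X Y : (Fin m → ℝ) → Cn n} {p : Fin m → ℝ} {N : WithTop ℕ∞}
    (hΨ : ContDiffAt ℝ N Ψ p) (hX : ContDiffAt ℝ N X p) (hY : ContDiffAt ℝ N Y p)
    (hp : ‖Ψ p‖ < 1) : ContDiffAt ℝ N (fun q => Gt (Ψ q) (X q) (Y q)) p := by
  have hρ : (1 - ‖Ψ p‖ ^ 2 : ℝ) ≠ 0 := by nlinarith [norm_nonneg (Ψ p)]
  unfold Gt
  have h1 : ContDiffAt ℝ N (fun q => (1 - ‖Ψ q‖ ^ 2)⁻¹) p :=
    (contDiffAt_const.sub (hΨ.norm_sq ℂ)).inv hρ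
  have h2 : ContDiffAt ℝ N (fun q => (((1 - ‖Ψ q‖ ^ 2)⁻¹ : ℝ) : ℂ)) p :=
    Complex.ofRealCLM.contDiff.contDiffAt.comp p h1
  exact h2.smul (((hΨ.inner ℂ hX).smul hY).add ((hΨ.inner ℂ hY).smul hX))

theorem contDiffAt_hh {Ψ X Y : (Fin m → ℝ) → Cn n} {p : Fin m → ℝ} {N : WithTop ℕ∞}
    (hΨ : ContDiffAt ℝ N Ψ p) (hX : ContDiffAt ℝ N X p) (hY : ContDiffAt ℝ N Y p)
    (hp : ‖Ψ p‖ < 1) : ContDiffAt ℝ N (fun q => hh (Ψ q) (X q) (Y q)) p := by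
  have hρ : (1 - ‖Ψ p‖ ^ 2 : ℝ) ≠ 0 := by nlinarith [norm_nonneg (Ψ p)]
  unfold hh
  have h1 : ContDiffAt ℝ N (fun q => (1 - ‖Ψ q‖ ^ 2)) p :=
    (contDiffAt_const.sub (hΨ.norm_sq ℂ))
  have h2 : ContDiffAt ℝ N (fun q => (((1 - ‖Ψ q‖ ^ 2) : ℝ) : ℂ)) p :=
    Complex.ofRealCLM.contDiff.contDiffAt.comp p h1
  have h3 : ContDiffAt ℝ N (fun q => (((1 - ‖Ψ q‖ ^ 2) ^ 2 : ℝ) : ℂ)) p :=
    Complex.ofRealCLM.contDiff.contDiffAt.comp p (h1.pow 2)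
  have h4 : ContDiffAt ℝ N (fun q => (((1 - ‖Ψ q‖ ^ 2) ^ 2 : ℝ) : ℂ)⁻¹) p := h3.inv (by
    exact_mod_cast pow_ne_zero 2 hρ)
  simp only [div_eq_mul_inv]
  exact ((h2.mul (hX.inner ℂ hY)).add ((hX.inner ℂ hΨ).mul (hΨ.inner ℂ hY))).mul h4

theorem contDiffAt_bergman {Ψ X Y : (Fin m → ℝ) → Cn n} {p : Fin m → ℝ} {N : WithTop ℕ∞} (c : ℝ)
    (hΨ : ContDiffAt ℝ N Ψ p) (hX : ContDiffAt ℝ N X p) (hY : ContDiffAt ℝ N Y p)
    (hp : ‖Ψ p‖ < 1) : ContDiffAt ℝ N (fun q => bergman c (Ψ q) (X q) (Y q)) p := by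
  have h1 : (fun q => bergman c (Ψ q) (X q) (Y q)) =
      fun q => (-1 / c) * (hh (Ψ q) (X q) (Y q)).re := by
    funext q
    rw [bergman_eq]
  rw [h1]
  exact contDiffAt_const.mul (Complex.reCLM.contDiff.contDiffAt.comp p (contDiffAt_hh hΨ hX hY hp))

theorem fderiv_bergman {Ψ X Y : (Fin m → ℝ) → Cn n} {p : Fin m → ℝ} (c : ℝ)
    (hΨ : ContDiffAt ℝ 1 Ψ p) (hX : ContDiffAt ℝ 1 X p) (hY : ContDiffAt ℝ 1 Y p)
    (hp : ‖Ψ p‖ < 1) (v : Fin m → ℝ) :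
    fderiv ℝ (fun q => bergman c (Ψ q) (X q) (Y q)) p v =
      bergman c (Ψ p) (cov Ψ v X p) (Y p) + bergman c (Ψ p) (X p) (cov Ψ v Y p) := by
  have d0 := (contDiffAt_bergman c hΨ hX hY hp).differentiableAt (by simp)
  have h1 := line_deriv d0 v
  have h2 := line_deriv (hΨ.differentiableAt (by simp)) v
  have h3 := line_deriv (hX.differentiableAt (by simp)) v
  have h4 := line_deriv (hY.differentiableAt (by simp)) v
  have h5 := hasDerivAt_hh h2 h3 h4 (by simpa using hp)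
  have h6 := (Complex.reCLM.hasFDerivAt.comp_hasDerivAt (0:ℝ) h5).const_mul (-1 / c)
  have h7 : (fun t : ℝ => bergman c (Ψ (p + t • v)) (X (p + t • v)) (Y (p + t • v))) =
      fun t : ℝ => (-1 / c) * (Complex.reCLM ∘ fun s : ℝ => hh (Ψ (p + s • v)) (X (p + s • v))
        (Y (p + s • v))) t := by
    funext t
    rw [bergman_eq]
    rfl
  rw [h7] at h1
  have h8 := h1.unique h6
  rw [h8]
  simp only [zero_smul, add_zero, bergman_eq, Complex.reCLM_apply, Complex.add_re, mul_add, cov]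

theorem fderiv_Gt {Ψ X Y : (Fin m → ℝ) → Cn n} {p : Fin m → ℝ}
    (hΨ : ContDiffAt ℝ 1 Ψ p) (hX : ContDiffAt ℝ 1 X p) (hY : ContDiffAt ℝ 1 Y p)
    (hp : ‖Ψ p‖ < 1) (v : Fin m → ℝ) :
    fderiv ℝ (fun q => Gt (Ψ q) (X q) (Y q)) p v =
      Gt (Ψ p) (fderiv ℝ X p v) (Y p) + Gt (Ψ p) (X p) (fderiv ℝ Y p v) +
        dGt (Ψ p) (fderiv ℝ Ψ p v) (X p) (Y p) := by
  have d0 := (contDiffAt_Gt hΨ hX hY hp).differentiableAt (by simp)
  have h1 := line_deriv d0 v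
  have h2 := line_deriv (hΨ.differentiableAt (by simp)) v
  have h3 := line_deriv (hX.differentiableAt (by simp)) v
  have h4 := line_deriv (hY.differentiableAt (by simp)) v
  have h5 := hasDerivAt_Gt h2 h3 h4 (by simpa using hp)
  have h6 := h1.unique h5
  rw [h6]
  simp only [zero_smul, add_zero]

/-- derivatives of smooth maps are smooth. -/
theorem contDiffAt_dir {E : Type*} [NormedAddCommGroup E] [NormedSpace ℝ E]
    {F : (Fin m → ℝ) → E} {p : Fin m → ℝ} (h : ContDiffAt ℝ ∞ F p) (v : Fin m → ℝ) :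
    ContDiffAt ℝ ∞ (fun q => fderiv ℝ F q v) p := by
  have h1 : ContDiffAt ℝ ∞ (fderiv ℝ F) p := h.fderiv_right (by simp)
  exact h1.clm_apply contDiffAt_const

theorem contDiffAt_cov {Ψ X : (Fin m → ℝ) → Cn n} {p : Fin m → ℝ}
    (hΨ : ContDiffAt ℝ ∞ Ψ p) (hX : ContDiffAt ℝ ∞ X p) (hp : ‖Ψ p‖ < 1) (v : Fin m → ℝ) :
    ContDiffAt ℝ ∞ (fun q => cov Ψ v X q) p :=
  (contDiffAt_dir hX v).add (contDiffAt_Gt hΨ (contDiffAt_dir hΨ v) hX hp)

theorem fderiv_symm {E : Type*} [NormedAddCommGroup E] [NormedSpace ℝ E]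
    {F : (Fin m → ℝ) → E} {p : Fin m → ℝ} (h : ContDiffAt ℝ ∞ F p) (v w : Fin m → ℝ) :
    fderiv ℝ (fun q => fderiv ℝ F q w) p v = fderiv ℝ (fun q => fderiv ℝ F q v) p w := by
  have h1 : ContDiffAt ℝ ∞ (fderiv ℝ F) p := h.fderiv_right (by simp)
  have h2 : DifferentiableAt ℝ (fderiv ℝ F) p := h1.differentiableAt (by simp)
  have h3 : IsSymmSndFDerivAt ℝ F p := h.isSymmSndFDerivAt (by
    rw [minSmoothness_of_isRCLikeNormedField]
    exact ENat.LEInfty.out)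
  have e : ∀ a b : Fin m → ℝ, fderiv ℝ (fun q => fderiv ℝ F q a) p b =
      fderiv ℝ (fderiv ℝ F) p b a := by
    intro a b
    rw [fderiv_clm_apply h2 (differentiableAt_const _)]
    simp
  rw [e, e]
  exact h3 v w

theorem cov_symm {Ψ : (Fin m → ℝ) → Cn n} {p : Fin m → ℝ} (hΨ : ContDiffAt ℝ ∞ Ψ p)
    (v w : Fin m → ℝ) :
    cov Ψ v (fun q => fderiv ℝ Ψ q w) p = cov Ψ w (fun q => fderiv ℝ Ψ q v) p := by
  unfold cov
  rw [fderiv_symm hΨ v w, Gt_symm]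

theorem cov_curv {Ψ X : (Fin m → ℝ) → Cn n} {p : Fin m → ℝ} (hΨ : ContDiffAt ℝ ∞ Ψ p)
    (hX : ContDiffAt ℝ ∞ X p) (hp : ‖Ψ p‖ < 1) (v w : Fin m → ℝ) :
    cov Ψ v (fun q => cov Ψ w X q) p - cov Ψ w (fun q => cov Ψ v X q) p =
      Rt (Ψ p) (fderiv ℝ Ψ p v) (fderiv ℝ Ψ p w) (X p) := by
  have key : ∀ a b : Fin m → ℝ, cov Ψ a (fun q => cov Ψ b X q) p =
      fderiv ℝ (fun q => fderiv ℝ X q b) p a +
      (Gt (Ψ p) (fderiv ℝ (fun q => fderiv ℝ Ψ q b) p a) (X p) +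
        Gt (Ψ p) (fderiv ℝ Ψ p b) (fderiv ℝ X p a) +
        dGt (Ψ p) (fderiv ℝ Ψ p a) (fderiv ℝ Ψ p b) (X p)) +
      (Gt (Ψ p) (fderiv ℝ Ψ p a) (fderiv ℝ X p b) +
        Gt (Ψ p) (fderiv ℝ Ψ p a) (Gt (Ψ p) (fderiv ℝ Ψ p b) (X p))) := by
    intro a b
    have h1 : fderiv ℝ (fun q => cov Ψ b X q) p a =
        fderiv ℝ (fun q => fderiv ℝ X q b) p a +
          fderiv ℝ (fun q => Gt (Ψ q) (fderiv ℝ Ψ q b) (X q)) p a := by
      have d1 := (contDiffAt_dir hX b).differentiableAt (by simp)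
      have d2 := (contDiffAt_Gt hΨ (contDiffAt_dir hΨ b) hX hp).differentiableAt (by simp)
      have h2 := fderiv_fun_add d1 d2
      unfold cov
      rw [h2]
      rfl
    have h2 := fderiv_Gt (hΨ.of_le (by simp)) ((contDiffAt_dir hΨ b).of_le (by simp))
      (hX.of_le (by simp)) hp a
    unfold cov at h1 ⊢
    rw [h1, h2, Gt_add_right]
  rw [key, key, fderiv_symm hX v w, fderiv_symm hΨ v w, ← Rt_eq hp]
  abel

theorem cov_add {Ψ X Y : (Fin m → ℝ) → Cn n} {p : Fin m → ℝ} (hX : DifferentiableAt ℝ X p)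
    (hY : DifferentiableAt ℝ Y p) (v : Fin m → ℝ) :
    cov Ψ v (fun q => X q + Y q) p = cov Ψ v X p + cov Ψ v Y p := by
  unfold cov
  have h2 := fderiv_fun_add hX hY
  rw [h2, Gt_add_right]
  simp only [ContinuousLinearMap.add_apply]
  abel

theorem cov_smul {Ψ X : (Fin m → ℝ) → Cn n} {f : (Fin m → ℝ) → ℝ} {p : Fin m → ℝ}
    (hf : DifferentiableAt ℝ f p) (hX : DifferentiableAt ℝ X p) (v : Fin m → ℝ) :
    cov Ψ v (fun q => f q • X q) p = fderiv ℝ f p v • X p + f p • cov Ψ v X p := by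
  unfold cov
  have h2 := fderiv_fun_smul hf hX
  have h3 : Gt (Ψ p) (fderiv ℝ Ψ p v) (f p • X p) = f p • Gt (Ψ p) (fderiv ℝ Ψ p v) (X p) := by
    rw [← Complex.coe_smul, ← Complex.coe_smul, Gt_smul_right]
  rw [h2, h3]
  simp only [ContinuousLinearMap.add_apply, ContinuousLinearMap.smul_apply,
    ContinuousLinearMap.smulRight_apply, smul_add]
  abel

theorem cov_I {Ψ X : (Fin m → ℝ) → Cn n} {p : Fin m → ℝ} (hX : DifferentiableAt ℝ X p)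
    (v : Fin m → ℝ) :
    cov Ψ v (fun q => Complex.I • X q) p = Complex.I • cov Ψ v X p := by
  unfold cov
  have h2 : fderiv ℝ (fun q => Complex.I • X q) p = Complex.I • fderiv ℝ X p :=
    fderiv_fun_const_smul hX Complex.I
  rw [h2, Gt_smul_right, smul_add]
  rfl

theorem cov_sum {Ψ : (Fin m → ℝ) → Cn n} {ι : Type*} (s : Finset ι)
    {X : ι → (Fin m → ℝ) → Cn n} {p : Fin m → ℝ} (hX : ∀ i ∈ s, DifferentiableAt ℝ (X i) p)
    (v : Fin m → ℝ) :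
    cov Ψ v (fun q => ∑ i ∈ s, X i q) p = ∑ i ∈ s, cov Ψ v (X i) p := by
  classical
  induction s using Finset.induction_on with
  | empty =>
    simp only [Finset.sum_empty, cov]
    have h1 : Gt (Ψ p) (fderiv ℝ Ψ p v) 0 = 0 := by
      have := Gt_smul_right (Ψ p) (fderiv ℝ Ψ p v) 0 0
      simpa using this
    rw [h1]
    simp
  | insert i s hi ih =>
    have h1 : (fun q => ∑ j ∈ insert i s, X j q) = fun q => X i q + ∑ j ∈ s, X j q := by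
      funext q
      rw [Finset.sum_insert hi]
    rw [h1, Finset.sum_insert hi, cov_add (hX i (Finset.mem_insert_self _ _))
      (DifferentiableAt.fun_sum fun j hj => hX j (Finset.mem_insert_of_mem hj)),
      ih fun j hj => hX j (Finset.mem_insert_of_mem hj)]

/-- linearity in the direction -/
theorem cov_dir_add {Ψ X : (Fin m → ℝ) → Cn n} {p : Fin m → ℝ} (v w : Fin m → ℝ) :
    cov Ψ (v + w) X p = cov Ψ v X p + cov Ψ w X p := by
  unfold cov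
  rw [map_add, map_add, Gt_add_left]
  abel

theorem cov_dir_smul {Ψ X : (Fin m → ℝ) → Cn n} {p : Fin m → ℝ} (a : ℝ) (v : Fin m → ℝ) :
    cov Ψ (a • v) X p = a • cov Ψ v X p := by
  unfold cov
  rw [map_smul, map_smul, ← Complex.coe_smul a (fderiv ℝ Ψ p v), Gt_smul_left, Complex.coe_smul,
    smul_add]

end

end Pool.Agent.H61SP
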