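import Mathlib

/-!
Real hypersurfaces of complex hyperbolic space (unit ball with the Bergman metric): induced metric,
Christoffel symbols, Riemann tensor and shape operator in coordinates.
-/

set_option autoImplicit false

open scoped ContDiff

namespace Pool.Agent.H61SP

/-- `ℂ^n` with its standard Hermitian norm. Complex hyperbolic space `ℂH^n` is its open unit
ball. -/
abbrev Cn (n : ℕ) : Type := EuclideanSpace ℂ (Fin n)

/-- The Bergman metric of the unit ball of `ℂ^n`, scaled to constant holomorphic sectional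
curvature `4c < 0`: at the point `ζ`,
`g(u, v) = (-1/c) ((1 - |ζ|²) Re⟨u, v⟩ + Re(⟨u, ζ⟩ ⟨ζ, v⟩)) / (1 - |ζ|²)²`.
(For `n = 1` and `c = -1` it is `|dζ|² / (1 - |ζ|²)²`, of curvature `-4`.) -/
noncomputable def bergman {n : ℕ} (c : ℝ) (ζ u v : Cn n) : ℝ :=
  (-1 / c) * (((1 - ‖ζ‖ ^ 2) * (inner ℂ u v).re + (inner ℂ u ζ * inner ℂ ζ v).re) /
    (1 - ‖ζ‖ ^ 2) ^ 2)

/-- The derivative at `ζ`, in the direction `a`, of the coefficient `g(u, v)` of the metric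
(`u`, `v` constant vector fields). -/
noncomputable def metricDeriv {n : ℕ} (c : ℝ) (ζ a u v : Cn n) : ℝ :=
  fderiv ℝ (fun ζ' => bergman c ζ' u v) ζ a

/-- The partial derivative `∂F/∂p_i` at `p`, for a function `F` on `ℝ^m`. -/
noncomputable def pd {m : ℕ} {E : Type*} [NormedAddCommGroup E] [NormedSpace ℝ E] (i : Fin m)
    (F : (Fin m → ℝ) → E) (p : Fin m → ℝ) : E :=
  fderiv ℝ F p (Pi.single i 1)

/-- `Ψ : U → ℂH^n`, `U ⊆ ℝ^m` open and nonempty, `m = 2n - 1`, is a smooth immersed real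
hypersurface with smooth unit normal field `ξ`. -/
structure IsHypersurface {m n : ℕ} (c : ℝ) (U : Set (Fin m → ℝ)) (Ψ ξ : (Fin m → ℝ) → Cn n) :
    Prop where
  dim : m + 1 = 2 * n
  isOpen : IsOpen U
  nonempty : U.Nonempty
  smooth : ContDiffOn ℝ ∞ Ψ U
  smooth_normal : ContDiffOn ℝ ∞ ξ U
  mem_ball : ∀ p ∈ U, ‖Ψ p‖ < 1
  immersion : ∀ p ∈ U, Function.Injective (fderiv ℝ Ψ p)
  unit_normal : ∀ p ∈ U, bergman c (Ψ p) (ξ p) (ξ p) = 1
  normal : ∀ p ∈ U, ∀ i, bergman c (Ψ p) (ξ p) (pd i Ψ p) = 0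

/-- The matrix `g_ij = g(∂_i Ψ, ∂_j Ψ)` of the induced metric. -/
noncomputable def gram {m n : ℕ} (c : ℝ) (Ψ : (Fin m → ℝ) → Cn n) (p : Fin m → ℝ) :
    Matrix (Fin m) (Fin m) ℝ :=
  Matrix.of fun i j => bergman c (Ψ p) (pd i Ψ p) (pd j Ψ p)

/-- The Christoffel symbols `Γ^k_ij = (1/2) ∑_l g^kl (∂_i g_jl + ∂_j g_il - ∂_l g_ij)` of a
field `G` of matrices (a metric). -/
noncomputable def christoffel {m : ℕ} (G : (Fin m → ℝ) → Matrix (Fin m) (Fin m) ℝ)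
    (p : Fin m → ℝ) (k i j : Fin m) : ℝ :=
  (1 / 2) * ∑ l, (G p)⁻¹ k l * (pd i (fun q => G q j l) p + pd j (fun q => G q i l) p -
    pd l (fun q => G q i j) p)

/-- The matrix of the curvature operator `R(∂_i, ∂_j)` of the metric `G`: its entry `(k, l)` is
the coefficient of `∂_k` in `R(∂_i, ∂_j) ∂_l`, that is
`∂_i Γ^k_jl - ∂_j Γ^k_il + ∑_s (Γ^k_is Γ^s_jl - Γ^k_js Γ^s_il)`. -/
noncomputable def riemann {m : ℕ} (G : (Fin m → ℝ) → Matrix (Fin m) (Fin m) ℝ)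
    (p : Fin m → ℝ) (i j : Fin m) : Matrix (Fin m) (Fin m) ℝ :=
  Matrix.of fun k l =>
    pd i (fun q => christoffel G q k j l) p - pd j (fun q => christoffel G q k i l) p +
      ∑ s, (christoffel G p k i s * christoffel G p s j l -
        christoffel G p k j s * christoffel G p s i l)

/-- The second fundamental form `h_ij = -g(∇_i ξ, ∂_j Ψ)`, where `∇` is the Levi-Civita
connection of the Bergman metric: by the Koszul formula, `g(∇_i ξ, w)` is
`g(∂_i ξ, w) + (1/2) ((∂_iΨ g)(ξ, w) + (ξ g)(∂_iΨ, w) - (w g)(∂_iΨ, ξ))`. -/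
noncomputable def secondForm {m n : ℕ} (c : ℝ) (Ψ ξ : (Fin m → ℝ) → Cn n) (p : Fin m → ℝ) :
    Matrix (Fin m) (Fin m) ℝ :=
  Matrix.of fun i j =>
    -(bergman c (Ψ p) (pd i ξ p) (pd j Ψ p) +
      (metricDeriv c (Ψ p) (pd i Ψ p) (ξ p) (pd j Ψ p) +
        metricDeriv c (Ψ p) (ξ p) (pd i Ψ p) (pd j Ψ p) -
        metricDeriv c (Ψ p) (pd j Ψ p) (pd i Ψ p) (ξ p)) / 2)

/-- The matrix `g^{-1} h` of the shape operator `A`, in the basis `∂_1 Ψ, ..., ∂_m Ψ` of the tangent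
space. -/
noncomputable def shape {m n : ℕ} (c : ℝ) (Ψ ξ : (Fin m → ℝ) → Cn n) (p : Fin m → ℝ) :
    Matrix (Fin m) (Fin m) ℝ :=
  (gram c Ψ p)⁻¹ * secondForm c Ψ ξ p

/-- `R · A = 0` at the point `p`: every curvature operator `R(∂_i, ∂_j)` of the induced metric
commutes with the shape operator. -/
def SemiParallelAt {m n : ℕ} (c : ℝ) (Ψ ξ : (Fin m → ℝ) → Cn n) (p : Fin m → ℝ) : Prop :=
  ∀ i j, riemann (gram c Ψ) p i j * shape c Ψ ξ p = shape c Ψ ξ p * riemann (gram c Ψ) p i j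

end Pool.Agent.H61SP
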