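import Pool.Agent.H61SP.Gauss

/-! No real hypersurface of complex hyperbolic space is semi-parallel. -/

set_option autoImplicit false

open scoped ContDiff ComplexConjugate Topology

namespace Pool.Agent.H61SP

variable {m n : ℕ} {c : ℝ} {U : Set (Fin m → ℝ)} {Ψ ξ : (Fin m → ℝ) → Cn n} {p : Fin m → ℝ}

theorem no_semiparallel (hn : 2 ≤ n) (hc : c < 0) (h : IsHypersurface c U Ψ ξ) :
    ¬ ∀ p ∈ U, SemiParallelAt c Ψ ξ p := by
  intro hall
  obtain ⟨p, hp⟩ := h.nonempty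
  have hm : 2 ≤ m := by have := h.dim; omega
  obtain ⟨u, hu, a, μ, hcov, hprod⟩ := pointwise hc h hp (hall p hp)
  -- a vector orthogonal to `W`
  obtain ⟨v, hv0, hvη⟩ : ∃ v : Fin m → ℝ, v ≠ 0 ∧ Bf c Ψ p u v = 0 := by
    have h1 : LinearMap.ker (Bf c Ψ p u) ≠ ⊥ := by
      apply LinearMap.ker_ne_bot_of_finrank_lt
      rw [Module.finrank_self, Module.finrank_fin_fun]
      omega
    obtain ⟨v, hv, hv0⟩ := (Submodule.ne_bot_iff _).1 h1
    exact ⟨v, hv0, hv⟩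
  -- the functions
  set J : Cn n → Cn n := fun X => Complex.I • X with hJ
  have sΨ := smΨ h hp
  have sξ := smξ h hp
  have hb := h.mem_ball p hp
  have sB : ∀ w, ContDiffAt ℝ ∞ (fun q => fderiv ℝ Ψ q w) p := fun w => contDiffAt_dir sΨ w
  have sI : ∀ {X : (Fin m → ℝ) → Cn n}, ContDiffAt ℝ ∞ X p →
      ContDiffAt ℝ ∞ (fun q => Complex.I • X q) p := fun hX => hX.const_smul Complex.I
  have sD : ∀ w, ContDiffAt ℝ ∞ (fun q => cov Ψ w ξ q) p := fun w => contDiffAt_cov sΨ sξ hb w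
  set η : (Fin m → ℝ) → (Fin m → ℝ) → ℝ := fun w q =>
    bergman c (Ψ q) (Complex.I • fderiv ℝ Ψ q w) (ξ q) with hη
  set k : (Fin m → ℝ) → ℝ := fun q =>
    bergman c (Ψ q) (fderiv ℝ Ψ q u) (Complex.I • fderiv ℝ Ψ q v) with hk
  set Fv : (Fin m → ℝ) → ℝ := fun q =>
    bergman c (Ψ q) (cov Ψ v ξ q) (Complex.I • fderiv ℝ Ψ q v) with hFv
  set Fu : (Fin m → ℝ) → ℝ := fun q =>
    bergman c (Ψ q) (cov Ψ u ξ q) (Complex.I • fderiv ℝ Ψ q v) with hFu
  set G : (Fin m → ℝ) → (Fin m → ℝ) → ℝ := fun w q =>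
    bergman c (Ψ q) (fderiv ℝ Ψ q w) (fderiv ℝ Ψ q v) with hG
  set H : (Fin m → ℝ) → (Fin m → ℝ) → ℝ := fun w q =>
    -bergman c (Ψ q) (cov Ψ w ξ q) (fderiv ℝ Ψ q v) with hH
  have sη : ∀ w, ContDiffAt ℝ ∞ (η w) p := fun w =>
    contDiffAt_bergman c sΨ (sI (sB w)) sξ hb
  have sk : ContDiffAt ℝ ∞ k p := contDiffAt_bergman c sΨ (sB u) (sI (sB v)) hb
  have sFu : ContDiffAt ℝ ∞ Fu p := contDiffAt_bergman c sΨ (sD u) (sI (sB v)) hb
  have sG : ∀ w, ContDiffAt ℝ ∞ (G w) p := fun w => contDiffAt_bergman c sΨ (sB w) (sB v) hb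
  have sH : ∀ w, ContDiffAt ℝ ∞ (H w) p := fun w =>
    (contDiffAt_bergman c sΨ (sD w) (sB v) hb).neg
  -- identities at all points of `U`
  have hid : ∀ q ∈ U, Fv q = 0 ∧
      Fu q * (η u q * G v q - η v q * G u q) = -(k q * (η u q * H v q - η v q * H u q)) := by
    intro q hq
    obtain ⟨W, hW, a', μ', hc', -⟩ := pointwise hc h hq (hall q hq)
    have e1 : ∀ w, Bf c Ψ q W w = η w q := by
      intro w
      rw [Bf_apply, hW, bg_neg_left, bg_I_left, neg_neg, bg_symm]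
    have e2 : ∀ w X, bergman c (Ψ q) (cov Ψ w ξ q) X =
        -μ' * bergman c (Ψ q) (fderiv ℝ Ψ q w) X -
          (a' - μ') * η w q * bergman c (Ψ q) (fderiv ℝ Ψ q W) X := by
      intro w X
      rw [hc' w, bg_sub_left, bg_neg_left, bg_smul_left, bg_smul_left, e1]
      ring
    have e3 : bergman c (Ψ q) (fderiv ℝ Ψ q W) (Complex.I • fderiv ℝ Ψ q v) = 0 := by
      rw [hW, bg_neg_left, bg_I_I, normal_dir h hq, neg_zero]
    have e4 : bergman c (Ψ q) (fderiv ℝ Ψ q W) (fderiv ℝ Ψ q v) = η v q := e1 v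
    have f1 : Fv q = 0 := by
      change bergman c (Ψ q) (cov Ψ v ξ q) (Complex.I • fderiv ℝ Ψ q v) = 0
      rw [e2, e3, bg_I_self]
      ring
    have f2 : Fu q = -μ' * k q := by
      change bergman c (Ψ q) (cov Ψ u ξ q) (Complex.I • fderiv ℝ Ψ q v) = _
      rw [e2, e3]
      ring
    have f3 : ∀ w, H w q = μ' * G w q + (a' - μ') * η w q * η v q := by
      intro w
      change -bergman c (Ψ q) (cov Ψ w ξ q) (fderiv ℝ Ψ q v) = _
      rw [e2, e4]
      ring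
    refine ⟨f1, ?_⟩
    rw [f2, f3, f3]
    ring
  -- values at `p`
  have hηu : η u p = 1 := by
    change bergman c (Ψ p) (Complex.I • fderiv ℝ Ψ p u) (ξ p) = 1
    rw [hu, smul_neg, smul_smul, Complex.I_mul_I, neg_one_smul, neg_neg]
    exact h.unit_normal p hp
  have hηe : ∀ w, Bf c Ψ p u w = η w p := by
    intro w
    change bergman c (Ψ p) (fderiv ℝ Ψ p u) (fderiv ℝ Ψ p w) =
      bergman c (Ψ p) (Complex.I • fderiv ℝ Ψ p w) (ξ p)
    rw [hu, bg_neg_left, bg_symm, bg_I_left]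
  have hηv : η v p = 0 := by rw [← hηe]; exact hvη
  have hkp : k p = 0 := by
    change bergman c (Ψ p) (fderiv ℝ Ψ p u) (Complex.I • fderiv ℝ Ψ p v) = 0
    rw [hu, bg_neg_left, bg_I_I, normal_dir h hp, neg_zero]
  have hDv : cov Ψ v ξ p = -(μ • fderiv ℝ Ψ p v) := by
    rw [hcov, hηe, hηv, mul_zero, zero_smul, sub_zero]
  have hDu : cov Ψ u ξ p = -(a • fderiv ℝ Ψ p u) := by
    rw [hcov, hηe, hηu]
    module
  have hFup : Fu p = 0 := by
    change bergman c (Ψ p) (cov Ψ u ξ p) (Complex.I • fderiv ℝ Ψ p v) = 0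
    rw [hDu, bg_neg_left, bg_smul_left]
    have : bergman c (Ψ p) (fderiv ℝ Ψ p u) (Complex.I • fderiv ℝ Ψ p v) = 0 := hkp
    rw [this]
    ring
  have hG0 : 0 < G v p := by
    refine bg_pos hc hb fun h0 => hv0 (h.immersion p hp ?_)
    have h0' : fderiv ℝ Ψ p v = 0 := h0
    rw [h0', map_zero]
  have hHv : H v p = μ * G v p := by
    change -bergman c (Ψ p) (cov Ψ v ξ p) (fderiv ℝ Ψ p v) = _
    rw [hDv, bg_neg_left, bg_smul_left]
    change -(-(μ * G v p)) = _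
    ring
  -- derivative of the identity for `Fu`
  have dd : ∀ {f : (Fin m → ℝ) → ℝ}, ContDiffAt ℝ ∞ f p → DifferentiableAt ℝ f p :=
    fun hf => hf.differentiableAt (by simp)
  have hder : fderiv ℝ Fu p v = -μ * fderiv ℝ k p v := by
    have g1 : (fun q => Fu q * (η u q * G v q - η v q * G u q)) =ᶠ[𝓝 p]
        fun q => -(k q * (η u q * H v q - η v q * H u q)) := by
      filter_upwards [h.isOpen.mem_nhds hp] with q hq
      exact (hid q hq).2
    have g2 := g1.fderiv_eq (𝕜 := ℝ)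
    have dM : DifferentiableAt ℝ (fun q => η u q * G v q - η v q * G u q) p :=
      ((dd (sη u)).mul (dd (sG v))).sub ((dd (sη v)).mul (dd (sG u)))
    have dL : DifferentiableAt ℝ (fun q => η u q * H v q - η v q * H u q) p :=
      ((dd (sη u)).mul (dd (sH v))).sub ((dd (sη v)).mul (dd (sH u)))
    rw [fderiv_fun_mul (dd sFu) dM, fderiv_fun_neg, fderiv_fun_mul (dd sk) dL] at g2
    have g3 := congrArg (fun T : (Fin m → ℝ) →L[ℝ] ℝ => T v) g2
    simp only [ContinuousLinearMap.add_apply, ContinuousLinearMap.smul_apply,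
      ContinuousLinearMap.neg_apply, smul_eq_mul, hFup, hkp, hηu, hηv, hHv, zero_mul, one_mul,
      sub_zero, zero_add] at g3
    have g4 : G v p * (fderiv ℝ Fu p v - -μ * fderiv ℝ k p v) = 0 := by linarith
    rcases mul_eq_zero.1 g4 with g5 | g5
    · exact absurd g5 hG0.ne'
    · linarith
  -- expansions of derivatives
  have o1 : ∀ {X : (Fin m → ℝ) → Cn n}, ContDiffAt ℝ ∞ X p → ContDiffAt ℝ 1 X p :=
    fun hX => hX.of_le (by simp)
  have dB : ∀ w, DifferentiableAt ℝ (fun q => fderiv ℝ Ψ q w) p := fun w =>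
    (sB w).differentiableAt (by simp)
  set X : Cn n := cov Ψ v (fun q => fderiv ℝ Ψ q u) p with hX
  set Y : Cn n := cov Ψ v (fun q => fderiv ℝ Ψ q v) p with hY
  have hX' : cov Ψ u (fun q => fderiv ℝ Ψ q v) p = X := cov_symm sΨ u v
  have k1 : fderiv ℝ k p v = bergman c (Ψ p) X (Complex.I • fderiv ℝ Ψ p v) +
      bergman c (Ψ p) (fderiv ℝ Ψ p u) (Complex.I • Y) := by
    have := fderiv_bergman c (o1 sΨ) (o1 (sB u)) (o1 (sI (sB v))) hb v
    rw [cov_I (dB v)] at this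
    exact this
  have k2 : fderiv ℝ Fu p v =
      bergman c (Ψ p) (cov Ψ v (fun q => cov Ψ u ξ q) p) (Complex.I • fderiv ℝ Ψ p v) +
      bergman c (Ψ p) (cov Ψ u ξ p) (Complex.I • Y) := by
    have := fderiv_bergman c (o1 sΨ) (o1 (sD u)) (o1 (sI (sB v))) hb v
    rw [cov_I (dB v)] at this
    exact this
  have k3 : (0 : ℝ) =
      bergman c (Ψ p) (cov Ψ u (fun q => cov Ψ v ξ q) p) (Complex.I • fderiv ℝ Ψ p v) +
      bergman c (Ψ p) (cov Ψ v ξ p) (Complex.I • X) := by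
    have h1 := fderiv_bergman c (o1 sΨ) (o1 (sD v)) (o1 (sI (sB v))) hb u
    rw [cov_I (dB v), hX'] at h1
    have h2 : (fun q => bergman c (Ψ q) (cov Ψ v ξ q) (Complex.I • fderiv ℝ Ψ q v)) =ᶠ[𝓝 p]
        fun _ => (0 : ℝ) := by
      filter_upwards [h.isOpen.mem_nhds hp] with q hq
      exact (hid q hq).1
    rw [h2.fderiv_eq, fderiv_fun_const] at h1
    simpa using h1
  -- the curvature
  have k4 := cov_curv sΨ sξ hb u v
  have k5 : bergman c (Ψ p) (Rt (Ψ p) (fderiv ℝ Ψ p u) (fderiv ℝ Ψ p v) (ξ p))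
      (Complex.I • fderiv ℝ Ψ p v) = -c * G v p := by
    rw [Rt_real hc.ne]
    have z1 : bergman c (Ψ p) (fderiv ℝ Ψ p v) (ξ p) = 0 := by rw [bg_symm, normal_dir h hp]
    have z2 : bergman c (Ψ p) (fderiv ℝ Ψ p u) (ξ p) = 0 := by rw [bg_symm, normal_dir h hp]
    have z3 : bergman c (Ψ p) (Complex.I • fderiv ℝ Ψ p v) (ξ p) = 0 := hηv
    have z4 : bergman c (Ψ p) (Complex.I • fderiv ℝ Ψ p u) (ξ p) = 1 := hηu
    rw [z1, z2, z3, z4]
    simp only [bg_smul_left, bg_sub_left, bg_add_left, bg_I_I, normal_dir h hp]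
    change c * (0 * _ - 0 * _ + 0 * _ - 1 * G v p - _) = _
    ring
  rw [← k4, bg_sub_left] at k5
  have k6 : bergman c (Ψ p) (cov Ψ v ξ p) (Complex.I • X) =
      μ * bergman c (Ψ p) X (Complex.I • fderiv ℝ Ψ p v) := by
    rw [hDv, bg_neg_left, bg_smul_left, bg_symm c (Ψ p) (fderiv ℝ Ψ p v), bg_I_left]
    ring
  have k7 : bergman c (Ψ p) (fderiv ℝ Ψ p u) (Complex.I • Y) = -(μ * G v p) := by
    have h1 := cov_normal_tangent h hp v v
    rw [hu, bg_neg_left, bg_I_I]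
    have h2 : bergman c (Ψ p) Y (ξ p) = μ * G v p := by
      have h3 : -bergman c (Ψ p) (cov Ψ v ξ p) (fderiv ℝ Ψ p v) = μ * G v p := hHv
      linarith
    rw [bg_symm, h2]
  have k8 : bergman c (Ψ p) (cov Ψ u ξ p) (Complex.I • Y) = a * (μ * G v p) := by
    rw [hDu, bg_neg_left, bg_smul_left, k7]
    ring
  rw [hder, k1, k7, k8] at k2
  have k9 : (a - μ) * μ = -c := by
    have h1 : ((a - μ) * μ - -c) * G v p = 0 := by nlinarith [k2, k3, k5, k6]
    rcases mul_eq_zero.1 h1 with h2 | h2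
    · linarith
    · exact absurd h2 hG0.ne'
  rcases mul_eq_zero.1 hprod with h1 | h1
  · rw [h1, zero_mul] at k9
    linarith
  · have h2 : μ ^ 2 = 0 := by nlinarith
    have h3 : μ = 0 := by simpa using h2
    rw [h3, mul_zero] at k9
    linarith

end Pool.Agent.H61SP
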