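import Pool.Agent.H61SP.Hyp

/-! The Gauss equation and the pointwise consequence of `R · A = 0`. -/

set_option autoImplicit false

open scoped ContDiff ComplexConjugate Topology

namespace Pool.Agent.H61SP

variable {m n : ℕ} {c : ℝ} {U : Set (Fin m → ℝ)} {Ψ ξ : (Fin m → ℝ) → Cn n} {p : Fin m → ℝ}

theorem tan_FF (hc : c < 0) (h : IsHypersurface c U Ψ ξ) (hp : p ∈ U)
    (t : Cn n →ₗ[ℝ] (Fin m → ℝ)) (ht1 : ∀ v, t (fderiv ℝ Ψ p v) = v) (ht2 : t (ξ p) = 0)
    (j l k : Fin m) : t (FF Ψ j l p) k = christoffel (gram c Ψ) p k j l := by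
  rw [christoffel_spec hc h hp j l, map_add, map_smul, ht2, smul_zero, add_zero, map_sum,
    Finset.sum_apply]
  simp only [map_smul, ht1]
  simp [Pi.single_apply]

theorem tan_normal (hc : c < 0) (h : IsHypersurface c U Ψ ξ) (hp : p ∈ U)
    (t : Cn n →ₗ[ℝ] (Fin m → ℝ)) (ht1 : ∀ v, t (fderiv ℝ Ψ p v) = v) (v : Fin m → ℝ) :
    t (cov Ψ v ξ p) = -AA c Ψ ξ p v := by
  have h1 := AA_spec hc h hp v
  have h2 := ht1 (AA c Ψ ξ p v)
  rw [h1, map_neg] at h2
  rw [← h2, neg_neg]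

theorem tan_cov_FF (hc : c < 0) (h : IsHypersurface c U Ψ ξ) (hp : p ∈ U)
    (t : Cn n →ₗ[ℝ] (Fin m → ℝ)) (ht1 : ∀ v, t (fderiv ℝ Ψ p v) = v) (ht2 : t (ξ p) = 0)
    (i j l k : Fin m) : t (cov Ψ (ev i) (FF Ψ j l) p) k =
      pd i (fun q => christoffel (gram c Ψ) q k j l) p +
      (∑ s, christoffel (gram c Ψ) p k i s * christoffel (gram c Ψ) p s j l) -
      bergman c (Ψ p) (FF Ψ j l p) (ξ p) * AA c Ψ ξ p (ev i) k := by
  have h1 : (FF Ψ j l) =ᶠ[𝓝 p] fun q =>
      (∑ k, christoffel (gram c Ψ) q k j l • fderiv ℝ Ψ q (ev k)) +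
        bergman c (Ψ q) (FF Ψ j l q) (ξ q) • ξ q := by
    filter_upwards [h.isOpen.mem_nhds hp] with q hq
    exact christoffel_spec hc h hq j l
  have dΓ : ∀ k, DifferentiableAt ℝ (fun q => christoffel (gram c Ψ) q k j l) p := fun k =>
    (contDiffAt_christoffel hc h hp k j l).differentiableAt (by simp)
  have dB : ∀ k : Fin m, DifferentiableAt ℝ (fun q => fderiv ℝ Ψ q (ev k)) p := fun k =>
    (contDiffAt_dir (smΨ h hp) _).differentiableAt (by simp)
  have dh : DifferentiableAt ℝ (fun q => bergman c (Ψ q) (FF Ψ j l q) (ξ q)) p :=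
    (contDiffAt_bergman c (smΨ h hp) (contDiffAt_FF h hp j l) (smξ h hp)
      (h.mem_ball p hp)).differentiableAt (by simp)
  have dξ : DifferentiableAt ℝ ξ p := (smξ h hp).differentiableAt (by simp)
  have dk : ∀ k ∈ (Finset.univ : Finset (Fin m)), DifferentiableAt ℝ (fun q =>
      christoffel (gram c Ψ) q k j l • fderiv ℝ Ψ q (ev k)) p := fun k _ => (dΓ k).smul (dB k)
  have ds : DifferentiableAt ℝ (fun q => bergman c (Ψ q) (FF Ψ j l q) (ξ q) • ξ q) p :=
    dh.smul dξ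
  rw [cov_congr h1, cov_add (DifferentiableAt.fun_sum dk) ds, cov_sum _ dk,
    cov_smul dh dξ, map_add, map_add, map_smul, map_smul, ht2, smul_zero, zero_add,
    tan_normal hc h hp t ht1, map_sum]
  simp only [cov_smul (dΓ _) (dB _), map_add, map_smul, ht1]
  rw [Pi.add_apply, Finset.sum_apply]
  have h2 : ∀ s, t (cov Ψ (ev i) (fun q => fderiv ℝ Ψ q (ev s)) p) k =
      christoffel (gram c Ψ) p k i s := fun s => tan_FF hc h hp t ht1 ht2 i s k
  simp only [Pi.add_apply, Pi.smul_apply, smul_eq_mul, Pi.neg_apply]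
  rw [Finset.sum_add_distrib]
  have h3 : ∑ x, (fderiv ℝ (fun q => christoffel (gram c Ψ) q x j l) p) (ev i) *
      (ev x : Fin m → ℝ) k = pd i (fun q => christoffel (gram c Ψ) q k j l) p := by
    rw [Finset.sum_eq_single k]
    · have e1 : (ev k : Fin m → ℝ) k = 1 := Pi.single_eq_same k 1
      rw [e1, mul_one]; rfl
    · intro b _ hb
      have e1 : (ev b : Fin m → ℝ) k = 0 := Pi.single_eq_of_ne (Ne.symm hb) 1
      rw [e1, mul_zero]
    · intro hk
      exact absurd (Finset.mem_univ k) hk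
  have h4 : ∑ x, christoffel (gram c Ψ) p x j l *
      t (cov Ψ (ev i) (fun q => fderiv ℝ Ψ q (ev x)) p) k =
      ∑ s, christoffel (gram c Ψ) p k i s * christoffel (gram c Ψ) p s j l :=
    Finset.sum_congr rfl fun s _ => by rw [h2, mul_comm]
  rw [h3, h4]
  ring

theorem gauss (hc : c < 0) (h : IsHypersurface c U Ψ ξ) (hp : p ∈ U)
    (t : Cn n →ₗ[ℝ] (Fin m → ℝ)) (ht1 : ∀ v, t (fderiv ℝ Ψ p v) = v) (ht2 : t (ξ p) = 0)
    (i j l : Fin m) : (riemann (gram c Ψ) p i j).mulVec (ev l) =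
      t (Rt (Ψ p) (fderiv ℝ Ψ p (ev i)) (fderiv ℝ Ψ p (ev j)) (fderiv ℝ Ψ p (ev l))) +
      bergman c (Ψ p) (FF Ψ j l p) (ξ p) • AA c Ψ ξ p (ev i) -
      bergman c (Ψ p) (FF Ψ i l p) (ξ p) • AA c Ψ ξ p (ev j) := by
  have h1 := cov_curv (smΨ h hp) (contDiffAt_dir (smΨ h hp) (ev l)) (h.mem_ball p hp) (ev i) (ev j)
  rw [← h1]
  funext k
  have h2 := tan_cov_FF hc h hp t ht1 ht2 i j l k
  have h3 := tan_cov_FF hc h hp t ht1 ht2 j i l k
  have h4 : (riemann (gram c Ψ) p i j).mulVec (ev l) k = riemann (gram c Ψ) p i j k l := by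
    simp [Matrix.mulVec_single]
  rw [h4, map_sub]
  simp only [Pi.add_apply, Pi.sub_apply, Pi.smul_apply, smul_eq_mul]
  change _ = t (cov Ψ (ev i) (FF Ψ j l) p) k - t (cov Ψ (ev j) (FF Ψ i l) p) k + _ - _
  rw [h2, h3]
  simp only [riemann, Matrix.of_apply, Finset.sum_sub_distrib]
  ring

/-- the induced metric as a bilinear form -/
noncomputable def Bf (c : ℝ) (Ψ : (Fin m → ℝ) → Cn n) (p : Fin m → ℝ) :
    (Fin m → ℝ) →ₗ[ℝ] (Fin m → ℝ) →ₗ[ℝ] ℝ :=
  (bgB c (Ψ p)).compl₁₂ (fderiv ℝ Ψ p).toLinearMap (fderiv ℝ Ψ p).toLinearMap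

theorem Bf_apply (v w : Fin m → ℝ) : Bf c Ψ p v w =
    bergman c (Ψ p) (fderiv ℝ Ψ p v) (fderiv ℝ Ψ p w) := rfl

/-- multiplication by `i` as a real linear map -/
noncomputable def Jm : Cn n →ₗ[ℝ] Cn n :=
  { toFun := fun X => Complex.I • X
    map_add' := fun X Y => smul_add _ _ _
    map_smul' := fun a X => by rw [RingHom.id_apply, smul_comm] }

theorem Jm_apply (X : Cn n) : Jm X = Complex.I • X := rfl

/-- Pointwise form of the shape operator: there are a unit tangent vector `W = -Jξ` and numbers. -/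
theorem pointwise (hc : c < 0) (h : IsHypersurface c U Ψ ξ) (hp : p ∈ U)
    (hsp : SemiParallelAt c Ψ ξ p) :
    ∃ W : Fin m → ℝ, fderiv ℝ Ψ p W = -(Complex.I • ξ p) ∧ ∃ a μ : ℝ,
      (∀ v, cov Ψ v ξ p = -(μ • fderiv ℝ Ψ p v) - ((a - μ) * Bf c Ψ p W v) • fderiv ℝ Ψ p W) ∧
      (a - μ) * (a * μ + c) = 0 := by
  obtain ⟨t, ht1, ht2, ht⟩ := exists_tan h hp
  have hb := h.mem_ball p hp
  have hn := h.unit_normal p hp
  set B := fderiv ℝ Ψ p with hB
  set A := AA c Ψ ξ p with hA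
  set g := bergman c (Ψ p) with hg
  set φ : (Fin m → ℝ) →ₗ[ℝ] (Fin m → ℝ) := t ∘ₗ Jm ∘ₗ B.toLinearMap with hφ
  have hφa : ∀ v, φ v = t (Complex.I • B v) := fun v => rfl
  have hsA : ∀ v, B (A v) = -cov Ψ v ξ p := fun v => AA_spec hc h hp v
  have hs : ∀ u v, Bf c Ψ p u v = Bf c Ψ p v u := fun u v => bg_symm _ _ _ _
  have hpos : ∀ v, v ≠ 0 → 0 < Bf c Ψ p v v := by
    intro v hv
    refine bg_pos hc hb fun h0 => hv (h.immersion p hp ?_)
    have h0' : fderiv ℝ Ψ p v = 0 := h0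
    rw [h0', map_zero]
  have hnd : ∀ v, g (ξ p) (B v) = 0 := fun v => normal_dir h hp v
  have hnd' : ∀ v, g (B v) (ξ p) = 0 := fun v => by rw [hg, bg_symm]; exact hnd v
  -- pairing with tangent vectors only sees the tangential part
  have htan : ∀ X v, g X (B v) = Bf c Ψ p (t X) v := by
    intro X v
    conv_lhs => rw [ht X]
    rw [hg, bg_add_left, bg_smul_left]
    change g (B (t X)) (B v) + g X (ξ p) * g (ξ p) (B v) = _
    rw [hnd, mul_zero, add_zero]
    rfl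
  have hAs : ∀ u v, Bf c Ψ p (A u) v = Bf c Ψ p u (A v) := by
    have key : ∀ u v, Bf c Ψ p (A u) v = bergman c (Ψ p)
        (cov Ψ u (fun q => fderiv ℝ Ψ q v) p) (ξ p) := by
      intro u v
      rw [Bf_apply, ← hB, hsA, bg_neg_left, cov_normal_tangent h hp, neg_neg]
    intro u v
    rw [key, hs u, key, cov_symm (smΨ h hp)]
  have hφs : ∀ u v, Bf c Ψ p (φ u) v = -Bf c Ψ p u (φ v) := by
    intro u v
    rw [hφa, ← htan, hs u, hφa, ← htan, hg, bg_I_left, bg_symm c (Ψ p) (Complex.I • B v)]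
  -- the structure vector
  set W : Fin m → ℝ := t (-(Complex.I • ξ p)) with hW
  have hIξ : g (-(Complex.I • ξ p)) (ξ p) = 0 := by
    rw [hg, bg_neg_left, bg_symm, bg_I_self, neg_zero]
  have hBW : B W = -(Complex.I • ξ p) := by
    have := ht (-(Complex.I • ξ p))
    change _ = B W + g (-(Complex.I • ξ p)) (ξ p) • ξ p at this
    rw [hIξ, zero_smul, add_zero] at this
    exact this.symm
  have hWW : Bf c Ψ p W W = 1 := by
    rw [Bf_apply, ← hB, hBW, bg_neg_left, bg_neg_right, neg_neg, bg_I_I]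
    exact hn
  have hφW : φ W = 0 := by
    rw [hφa, hBW, smul_neg, smul_smul, Complex.I_mul_I, neg_one_smul, neg_neg, ht2]
  -- normal component of `J`
  have hJn : ∀ v, g (Complex.I • B v) (ξ p) = Bf c Ψ p W v := by
    intro v
    rw [Bf_apply, ← hB, hBW, hg, bg_I_left, bg_neg_left, bg_symm c (Ψ p) (B v)]
  have hJ : ∀ v, Complex.I • B v = B (φ v) + Bf c Ψ p W v • ξ p := by
    intro v
    have := ht (Complex.I • B v)
    change _ = B (φ v) + g (Complex.I • B v) (ξ p) • ξ p at this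
    rw [hJn] at this
    exact this
  have hφφ : ∀ v, φ (φ v) = -v + Bf c Ψ p W v • W := by
    intro v
    have h1 : B (φ v) = Complex.I • B v - Bf c Ψ p W v • ξ p := by rw [hJ]; abel
    rw [hφa, h1, smul_sub, smul_smul, Complex.I_mul_I, neg_one_smul, smul_comm, map_sub, map_neg,
      ht1, map_smul, hW, map_neg, smul_neg, sub_eq_add_neg]
  -- tangential part of the curvature
  have htR : ∀ X Y Z, t (Rt (Ψ p) (B X) (B Y) (B Z)) +
      (Bf c Ψ p (A Y) Z • A X - Bf c Ψ p (A X) Z • A Y) = Rg (Bf c Ψ p) A φ c X Y Z := by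
    intro X Y Z
    rw [Rt_real hc.ne]
    simp only [map_smul, map_sub, map_add, Rg]
    change c • (g (B Y) (B Z) • t (B X) - g (B X) (B Z) • t (B Y) +
      g (Complex.I • B Y) (B Z) • t (Complex.I • B X) - g (Complex.I • B X) (B Z) •
        t (Complex.I • B Y) - (2 * g (Complex.I • B X) (B Y)) • t (Complex.I • B Z)) + _ = _
    rw [htan (Complex.I • B Y), htan (Complex.I • B X), htan (Complex.I • B X), ht1, ht1,
      ← hφa, ← hφa, ← hφa]
    rfl
  -- the Riemann tensor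
  have hRm : ∀ i j Z, (riemann (gram c Ψ) p i j).mulVec Z =
      Rg (Bf c Ψ p) A φ c (ev i) (ev j) Z := by
    intro i j
    have hl : ∀ l, (riemann (gram c Ψ) p i j).mulVec (ev l) =
        Rg (Bf c Ψ p) A φ c (ev i) (ev j) (ev l) := by
      intro l
      rw [gauss hc h hp t ht1 ht2, ← htR]
      have key : ∀ u v, Bf c Ψ p (A u) v = bergman c (Ψ p)
          (cov Ψ u (fun q => fderiv ℝ Ψ q v) p) (ξ p) := by
        intro u v
        rw [Bf_apply, ← hB, hsA, bg_neg_left, cov_normal_tangent h hp, neg_neg]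
      rw [key, key]
      abel
    have hlin : ∃ L : (Fin m → ℝ) →ₗ[ℝ] (Fin m → ℝ), ∀ Z, L Z =
        Rg (Bf c Ψ p) A φ c (ev i) (ev j) Z := by
      refine ⟨{ toFun := fun Z => Rg (Bf c Ψ p) A φ c (ev i) (ev j) Z
                map_add' := fun Y Z => ?_
                map_smul' := fun a Z => ?_ }, fun Z => rfl⟩
      · simp only [Rg, map_add]
        module
      · simp only [Rg, map_smul, RingHom.id_apply, smul_eq_mul]
        module
    obtain ⟨L, hL⟩ := hlin
    have h1 : (riemann (gram c Ψ) p i j).mulVecLin = L := by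
      refine (Pi.basisFun ℝ (Fin m)).ext fun l => ?_
      rw [Pi.basisFun_apply, Matrix.mulVecLin_apply, hl, hL]
    intro Z
    rw [← hL, ← h1, Matrix.mulVecLin_apply]
  have hcomm : ∀ i j Z, Rg (Bf c Ψ p) A φ c (ev i) (ev j) (A Z) =
      A (Rg (Bf c Ψ p) A φ c (ev i) (ev j) Z) := by
    intro i j Z
    rw [← hRm, ← hRm]
    have h1 : ∀ v, A v = (shape c Ψ ξ p).mulVec v := fun v => rfl
    rw [h1, h1, Matrix.mulVec_mulVec, Matrix.mulVec_mulVec, hsp i j]
  have hR : ∀ X Y Z, Rg (Bf c Ψ p) A φ c X Y (A Z) = A (Rg (Bf c Ψ p) A φ c X Y Z) := by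
    intro X Y Z
    -- linear in the first argument
    have hL1 : ∀ Y, ∃ L : (Fin m → ℝ) →ₗ[ℝ] (Fin m → ℝ), ∀ X, L X =
        Rg (Bf c Ψ p) A φ c X Y (A Z) - A (Rg (Bf c Ψ p) A φ c X Y Z) := by
      intro Y
      refine ⟨{ toFun := fun X => Rg (Bf c Ψ p) A φ c X Y (A Z) - A (Rg (Bf c Ψ p) A φ c X Y Z)
                map_add' := fun X X' => ?_
                map_smul' := fun a X => ?_ }, fun Z => rfl⟩
      · simp only [Rg, map_add, map_sub, map_smul, LinearMap.add_apply]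
        module
      · simp only [Rg, map_smul, map_add, map_sub, LinearMap.smul_apply, RingHom.id_apply,
          smul_eq_mul]
        module
    have hL2 : ∀ X, ∃ L : (Fin m → ℝ) →ₗ[ℝ] (Fin m → ℝ), ∀ Y, L Y =
        Rg (Bf c Ψ p) A φ c X Y (A Z) - A (Rg (Bf c Ψ p) A φ c X Y Z) := by
      intro X
      refine ⟨{ toFun := fun Y => Rg (Bf c Ψ p) A φ c X Y (A Z) - A (Rg (Bf c Ψ p) A φ c X Y Z)
                map_add' := fun Y Y' => ?_
                map_smul' := fun a Y => ?_ }, fun Z => rfl⟩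
      · simp only [Rg, map_add, map_sub, map_smul, LinearMap.add_apply]
        module
      · simp only [Rg, map_smul, map_add, map_sub, LinearMap.smul_apply, RingHom.id_apply,
          smul_eq_mul]
        module
    have h1 : ∀ i Y, Rg (Bf c Ψ p) A φ c (ev i) Y (A Z) -
        A (Rg (Bf c Ψ p) A φ c (ev i) Y Z) = 0 := by
      intro i Y
      obtain ⟨L, hL⟩ := hL2 (ev i)
      have h2 : L = 0 := by
        refine (Pi.basisFun ℝ (Fin m)).ext fun j => ?_
        rw [Pi.basisFun_apply, hL, hcomm, sub_self, LinearMap.zero_apply]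
      rw [← hL, h2, LinearMap.zero_apply]
    obtain ⟨L, hL⟩ := hL1 Y
    have h2 : L = 0 := by
      refine (Pi.basisFun ℝ (Fin m)).ext fun i => ?_
      rw [Pi.basisFun_apply, hL, h1, LinearMap.zero_apply]
    rw [← sub_eq_zero, ← hL, h2, LinearMap.zero_apply]
  obtain ⟨a, μ, haW, hμ, hprod⟩ := shape_form hc.ne hs hpos hAs hφs hWW hφW hφφ hR
  refine ⟨W, hBW, a, μ, fun v => ?_, hprod⟩
  have h1 : A v = μ • v + ((a - μ) * Bf c Ψ p W v) • W := by
    have h2 : v = (v - Bf c Ψ p W v • W) + Bf c Ψ p W v • W := by abel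
    have h3 : Bf c Ψ p W (v - Bf c Ψ p W v • W) = 0 := by
      rw [map_sub, map_smul, hWW, smul_eq_mul, mul_one, sub_self]
    conv_lhs => rw [h2]
    rw [map_add, hμ _ h3, map_smul, haW]
    module
  have h4 := hsA v
  rw [h1, map_add, map_smul, map_smul] at h4
  rw [← neg_neg (cov Ψ v ξ p), ← h4]
  abel

end Pool.Agent.H61SP
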