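import Pool.Agent.H61SP.Mat
import Pool.Agent.H61SP.Alg

/-! Hypersurfaces: Gauss equation. -/

set_option autoImplicit false

open scoped ContDiff ComplexConjugate Topology

namespace Pool.Agent.H61SP

variable {m n : ℕ} {c : ℝ} {U : Set (Fin m → ℝ)} {Ψ ξ : (Fin m → ℝ) → Cn n} {p : Fin m → ℝ}

/-- basis vectors -/
abbrev ev {m : ℕ} (i : Fin m) : Fin m → ℝ := Pi.single i 1

theorem vec_sum (v : Fin m → ℝ) : v = ∑ i, v i • ev i := by
  funext k
  simp [Finset.sum_apply, Pi.single_apply]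

theorem smΨ (h : IsHypersurface c U Ψ ξ) (hp : p ∈ U) : ContDiffAt ℝ ∞ Ψ p :=
  h.smooth.contDiffAt (h.isOpen.mem_nhds hp)

theorem smξ (h : IsHypersurface c U Ψ ξ) (hp : p ∈ U) : ContDiffAt ℝ ∞ ξ p :=
  h.smooth_normal.contDiffAt (h.isOpen.mem_nhds hp)

theorem normal_dir (h : IsHypersurface c U Ψ ξ) (hp : p ∈ U) (v : Fin m → ℝ) :
    bergman c (Ψ p) (ξ p) (fderiv ℝ Ψ p v) = 0 := by
  have h1 : (bgB c (Ψ p) (ξ p)) ∘ₗ (fderiv ℝ Ψ p).toLinearMap = 0 := by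
    refine (Pi.basisFun ℝ (Fin m)).ext fun i => ?_
    rw [Pi.basisFun_apply]
    exact h.normal p hp i
  exact LinearMap.congr_fun h1 v

theorem exists_tan (h : IsHypersurface c U Ψ ξ) (hp : p ∈ U) :
    ∃ t : Cn n →ₗ[ℝ] (Fin m → ℝ), (∀ v, t (fderiv ℝ Ψ p v) = v) ∧ t (ξ p) = 0 ∧
      ∀ X, X = fderiv ℝ Ψ p (t X) + bergman c (Ψ p) X (ξ p) • ξ p := by
  have hn : bergman c (Ψ p) (ξ p) (ξ p) = 1 := h.unit_normal p hp
  set T : ((Fin m → ℝ) × ℝ) →ₗ[ℝ] Cn n :=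
    (fderiv ℝ Ψ p).toLinearMap.coprod (LinearMap.toSpanSingleton ℝ (Cn n) (ξ p)) with hT
  have hTa : ∀ v s, T (v, s) = fderiv ℝ Ψ p v + s • ξ p := by
    intro v s
    rw [hT, LinearMap.coprod_apply, LinearMap.toSpanSingleton_apply]
    rfl
  have hTn : ∀ v s, bergman c (Ψ p) (T (v, s)) (ξ p) = s := by
    intro v s
    rw [hTa, bg_add_left, bg_smul_left, hn, bg_symm, normal_dir h hp, mul_one, zero_add]
  have hinj : Function.Injective T := by
    rw [injective_iff_map_eq_zero]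
    rintro ⟨v, s⟩ hvs
    have h1 := hTn v s
    rw [hvs, bg_zero_left] at h1
    subst h1
    rw [hTa, zero_smul, add_zero] at hvs
    have h2 : v = 0 := h.immersion p hp (by rw [hvs, map_zero])
    rw [h2]
    rfl
  have hdim : Module.finrank ℝ ((Fin m → ℝ) × ℝ) = Module.finrank ℝ (Cn n) := by
    rw [Module.finrank_prod, Module.finrank_fin_fun, Module.finrank_self,
      finrank_real_of_complex, finrank_euclideanSpace_fin]
    exact h.dim
  set T' := LinearEquiv.ofBijective T ⟨hinj,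
    (LinearMap.injective_iff_surjective_of_finrank_eq_finrank hdim).1 hinj⟩ with hT'
  have hT'a : ∀ x, T' x = T x := fun x => rfl
  refine ⟨(LinearMap.fst ℝ _ _) ∘ₗ T'.symm.toLinearMap, ?_, ?_, ?_⟩
  · intro v
    have h1 : T' (v, 0) = fderiv ℝ Ψ p v := by rw [hT'a, hTa, zero_smul, add_zero]
    rw [← h1]
    simp
  · have h1 : T' (0, 1) = ξ p := by rw [hT'a, hTa, one_smul, map_zero, zero_add]
    rw [← h1]
    simp
  · intro X
    obtain ⟨⟨v, s⟩, rfl⟩ := T'.surjective X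
    have h1 : (LinearMap.fst ℝ (Fin m → ℝ) ℝ ∘ₗ T'.symm.toLinearMap) (T' (v, s)) = v := by simp
    rw [h1, hT'a, hTn, hTa]

theorem gram_apply (i j : Fin m) : gram c Ψ p i j =
    bergman c (Ψ p) (fderiv ℝ Ψ p (ev i)) (fderiv ℝ Ψ p (ev j)) := rfl

theorem gram_mulVec (v : Fin m → ℝ) (l : Fin m) : (gram c Ψ p).mulVec v l =
    bergman c (Ψ p) (fderiv ℝ Ψ p v) (fderiv ℝ Ψ p (ev l)) := by
  have h1 : (gram c Ψ p).mulVec v l = ∑ j, gram c Ψ p l j * v j := rfl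
  conv_rhs => rw [vec_sum v]
  rw [h1, map_sum, ← bgB_apply, map_sum, LinearMap.sum_apply]
  refine Finset.sum_congr rfl fun j _ => ?_
  rw [map_smul, bgB_apply, bg_smul_left, gram_apply, bg_symm, mul_comm]

theorem gram_det (hc : c < 0) (h : IsHypersurface c U Ψ ξ) (hp : p ∈ U) :
    (gram c Ψ p).det ≠ 0 := by
  intro h0
  obtain ⟨v, hv, hv0⟩ := Matrix.exists_mulVec_eq_zero_iff.2 h0
  have h1 : bergman c (Ψ p) (fderiv ℝ Ψ p v) (fderiv ℝ Ψ p v) = 0 := by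
    conv_lhs => rw [vec_sum v]
    have h2 : bergman c (Ψ p) (fderiv ℝ Ψ p (∑ i, v i • ev i)) (fderiv ℝ Ψ p (∑ i, v i • ev i)) =
        ∑ i, v i * bergman c (Ψ p) (fderiv ℝ Ψ p v) (fderiv ℝ Ψ p (ev i)) := by
      rw [← vec_sum v]
      conv_lhs => rw [bg_symm, vec_sum v]
      conv_lhs => rw [← vec_sum v]
      have h3 : fderiv ℝ Ψ p v = ∑ i, v i • fderiv ℝ Ψ p (ev i) := by
        conv_lhs => rw [vec_sum v]
        rw [map_sum]
        exact Finset.sum_congr rfl fun i _ => map_smul _ _ _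
      have h4 : ∀ Y, bergman c (Ψ p) Y (fderiv ℝ Ψ p v) =
          ∑ i, v i * bergman c (Ψ p) Y (fderiv ℝ Ψ p (ev i)) := by
        intro Y
        rw [h3, ← bgB_apply, map_sum]
        exact Finset.sum_congr rfl fun i _ => by rw [map_smul, smul_eq_mul, bgB_apply]
      exact h4 _
    rw [h2]
    refine Finset.sum_eq_zero fun i _ => ?_
    rw [← gram_mulVec, hv0, Pi.zero_apply, mul_zero]
  have h2 : fderiv ℝ Ψ p v = 0 := by
    by_contra h3
    exact (bg_pos hc (h.mem_ball p hp) h3).ne' h1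
  exact hv (h.immersion p hp (by rw [h2, map_zero]))

theorem coef (hc : c < 0) (h : IsHypersurface c U Ψ ξ) (hp : p ∈ U) {X : Cn n}
    {v : Fin m → ℝ} {s : ℝ} (hX : X = fderiv ℝ Ψ p v + s • ξ p) (k : Fin m) :
    v k = ∑ l, (gram c Ψ p)⁻¹ k l * bergman c (Ψ p) X (fderiv ℝ Ψ p (ev l)) := by
  have h1 : ∀ l, bergman c (Ψ p) X (fderiv ℝ Ψ p (ev l)) = (gram c Ψ p).mulVec v l := by
    intro l
    rw [gram_mulVec, hX, bg_add_left, bg_smul_left, normal_dir h hp, mul_zero, add_zero]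
  have h2 : (gram c Ψ p)⁻¹.mulVec ((gram c Ψ p).mulVec v) = v := by
    rw [Matrix.mulVec_mulVec, Matrix.nonsing_inv_mul _ (isUnit_iff_ne_zero.2 (gram_det hc h hp)),
      Matrix.one_mulVec]
  conv_lhs => rw [← h2]
  change ∑ l, (gram c Ψ p)⁻¹ k l * (gram c Ψ p).mulVec v l = _
  exact Finset.sum_congr rfl fun l _ => by rw [h1]

/-- second derivatives -/
noncomputable abbrev FF (Ψ : (Fin m → ℝ) → Cn n) (j l : Fin m) (q : Fin m → ℝ) : Cn n :=
  cov Ψ (ev j) (fun q' => fderiv ℝ Ψ q' (ev l)) q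

theorem FF_symm (h : IsHypersurface c U Ψ ξ) (hp : p ∈ U) (j l : Fin m) :
    FF Ψ j l p = FF Ψ l j p := cov_symm (smΨ h hp) _ _

theorem pd_gram (h : IsHypersurface c U Ψ ξ) (hp : p ∈ U) (i j l : Fin m) :
    pd i (fun q => gram c Ψ q j l) p =
      bergman c (Ψ p) (FF Ψ i j p) (fderiv ℝ Ψ p (ev l)) +
        bergman c (Ψ p) (fderiv ℝ Ψ p (ev j)) (FF Ψ i l p) := by
  have h1 := smΨ h hp
  exact fderiv_bergman c (h1.of_le (by simp)) ((contDiffAt_dir h1 _).of_le (by simp))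
    ((contDiffAt_dir h1 _).of_le (by simp)) (h.mem_ball p hp) (ev i)

theorem koszul (h : IsHypersurface c U Ψ ξ) (hp : p ∈ U) (i j l : Fin m) :
    pd i (fun q => gram c Ψ q j l) p + pd j (fun q => gram c Ψ q i l) p -
      pd l (fun q => gram c Ψ q i j) p =
      2 * bergman c (Ψ p) (FF Ψ i j p) (fderiv ℝ Ψ p (ev l)) := by
  rw [pd_gram h hp, pd_gram h hp, pd_gram h hp, FF_symm h hp j i, FF_symm h hp l i,
    FF_symm h hp l j, bg_symm c (Ψ p) (fderiv ℝ Ψ p (ev j)) (FF Ψ i l p)]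
  ring

theorem christoffel_spec (hc : c < 0) (h : IsHypersurface c U Ψ ξ) (hp : p ∈ U) (j l : Fin m) :
    FF Ψ j l p = ∑ k, christoffel (gram c Ψ) p k j l • fderiv ℝ Ψ p (ev k) +
      bergman c (Ψ p) (FF Ψ j l p) (ξ p) • ξ p := by
  obtain ⟨t, -, -, ht⟩ := exists_tan h hp
  have h1 := ht (FF Ψ j l p)
  have h2 : ∀ k, t (FF Ψ j l p) k = christoffel (gram c Ψ) p k j l := by
    intro k
    rw [coef hc h hp h1 k, christoffel, Finset.mul_sum]
    refine Finset.sum_congr rfl fun s _ => ?_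
    rw [koszul h hp]
    ring
  have h3 : fderiv ℝ Ψ p (t (FF Ψ j l p)) =
      ∑ k, christoffel (gram c Ψ) p k j l • fderiv ℝ Ψ p (ev k) := by
    conv_lhs => rw [vec_sum (t (FF Ψ j l p))]
    rw [map_sum]
    refine Finset.sum_congr rfl fun k _ => ?_
    rw [map_smul, h2]
  rw [← h3]
  exact h1

theorem contDiffAt_gram (h : IsHypersurface c U Ψ ξ) (hp : p ∈ U) (i j : Fin m) :
    ContDiffAt ℝ ∞ (fun q => gram c Ψ q i j) p := by
  have h1 := smΨ h hp
  exact contDiffAt_bergman c h1 (contDiffAt_dir h1 _) (contDiffAt_dir h1 _) (h.mem_ball p hp)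

theorem contDiffAt_christoffel (hc : c < 0) (h : IsHypersurface c U Ψ ξ) (hp : p ∈ U)
    (k i j : Fin m) : ContDiffAt ℝ ∞ (fun q => christoffel (gram c Ψ) q k i j) p := by
  unfold christoffel
  refine contDiffAt_const.mul (ContDiffAt.sum fun l _ => ?_)
  refine (contDiffAt_inv_entry (contDiffAt_gram h hp) (gram_det hc h hp) k l).mul ?_
  exact ((contDiffAt_dir (contDiffAt_gram h hp j l) _).add
    (contDiffAt_dir (contDiffAt_gram h hp i l) _)).sub
    (contDiffAt_dir (contDiffAt_gram h hp i j) _)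

theorem contDiffAt_FF (h : IsHypersurface c U Ψ ξ) (hp : p ∈ U) (i j : Fin m) :
    ContDiffAt ℝ ∞ (FF Ψ i j) p := by
  have h1 := smΨ h hp
  exact contDiffAt_cov h1 (contDiffAt_dir h1 _) (h.mem_ball p hp) _

theorem cov_congr {X Y : (Fin m → ℝ) → Cn n} (hXY : X =ᶠ[𝓝 p] Y) (v : Fin m → ℝ) :
    cov Ψ v X p = cov Ψ v Y p := by
  unfold cov
  rw [hXY.fderiv_eq, hXY.eq_of_nhds]

/-- `g(∇ξ, ξ) = 0`. -/
theorem cov_normal_normal (h : IsHypersurface c U Ψ ξ) (hp : p ∈ U) (v : Fin m → ℝ) :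
    bergman c (Ψ p) (cov Ψ v ξ p) (ξ p) = 0 := by
  have h1 := fderiv_bergman c ((smΨ h hp).of_le (by simp)) ((smξ h hp).of_le (by simp))
    ((smξ h hp).of_le (by simp)) (h.mem_ball p hp) v
  have h2 : (fun q => bergman c (Ψ q) (ξ q) (ξ q)) =ᶠ[𝓝 p] fun _ => (1 : ℝ) := by
    filter_upwards [h.isOpen.mem_nhds hp] with q hq
    exact h.unit_normal q hq
  rw [h2.fderiv_eq, fderiv_fun_const, bg_symm c (Ψ p) (ξ p)] at h1
  simp only [Pi.zero_apply, ContinuousLinearMap.zero_apply] at h1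
  linarith

/-- `g(∇ξ, X) = -g(ξ, ∇X)` for tangent `X`. -/
theorem cov_normal_tangent (h : IsHypersurface c U Ψ ξ) (hp : p ∈ U) (v w : Fin m → ℝ) :
    bergman c (Ψ p) (cov Ψ v ξ p) (fderiv ℝ Ψ p w) =
      -bergman c (Ψ p) (cov Ψ v (fun q => fderiv ℝ Ψ q w) p) (ξ p) := by
  have h1 := fderiv_bergman c ((smΨ h hp).of_le (by simp)) ((smξ h hp).of_le (by simp))
    ((contDiffAt_dir (smΨ h hp) w).of_le (by simp)) (h.mem_ball p hp) v
  have h2 : (fun q => bergman c (Ψ q) (ξ q) (fderiv ℝ Ψ q w)) =ᶠ[𝓝 p] fun _ => (0 : ℝ) := by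
    filter_upwards [h.isOpen.mem_nhds hp] with q hq
    exact normal_dir h hq w
  rw [h2.fderiv_eq, fderiv_fun_const, bg_symm c (Ψ p) (ξ p)] at h1
  simp only [Pi.zero_apply, ContinuousLinearMap.zero_apply] at h1
  linarith

theorem metricDeriv_eq (c : ℝ) {ζ : Cn n} (hζ : ‖ζ‖ < 1) (a u v : Cn n) :
    metricDeriv c ζ a u v = bergman c ζ (Gt ζ a u) v + bergman c ζ u (Gt ζ a v) := by
  have hd : DifferentiableAt ℝ (fun ζ' : Cn n => bergman c ζ' u v) ζ := by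
    have hρ : (1 - ‖ζ‖ ^ 2 : ℝ) ≠ 0 := by nlinarith [norm_nonneg ζ]
    unfold bergman
    have h1 : DifferentiableAt ℝ (fun q : Cn n => (1 - ‖q‖ ^ 2)) ζ :=
      (differentiableAt_const _).sub (differentiableAt_id.norm_sq ℂ)
    have h2 : DifferentiableAt ℝ (fun q : Cn n => (inner ℂ u q * inner ℂ q v : ℂ)) ζ :=
      ((differentiableAt_const u).inner ℂ differentiableAt_id).mul
        (differentiableAt_id.inner ℂ (differentiableAt_const v))
    have h3 : DifferentiableAt ℝ (fun q : Cn n => (inner ℂ u q * inner ℂ q v : ℂ).re) ζ :=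
      Complex.reCLM.differentiableAt.comp ζ h2
    have h4 : DifferentiableAt ℝ (fun q : Cn n => ((1 - ‖q‖ ^ 2) ^ 2)⁻¹) ζ :=
      (h1.fun_pow 2).inv (pow_ne_zero 2 hρ)
    simp only [div_eq_mul_inv]
    exact (((h1.mul_const _).add h3).mul h4).const_mul _
  have h1 : HasDerivAt (fun t : ℝ => ζ + t • a) a 0 := by
    simpa using ((hasDerivAt_id (0:ℝ)).smul_const a).const_add ζ
  have h2 : HasFDerivAt (fun ζ' : Cn n => bergman c ζ' u v)
      (fderiv ℝ (fun ζ' : Cn n => bergman c ζ' u v) ζ) (ζ + (0:ℝ) • a) := by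
    simpa using hd.hasFDerivAt
  have h3 := h2.comp_hasDerivAt (0:ℝ) h1
  have h5 := hasDerivAt_hh h1 (hasDerivAt_const (0:ℝ) u) (hasDerivAt_const (0:ℝ) v)
    (by simpa using hζ)
  have h6 := (Complex.reCLM.hasFDerivAt.comp_hasDerivAt (0:ℝ) h5).const_mul (-1 / c)
  have h7 : ((fun ζ' : Cn n => bergman c ζ' u v) ∘ fun t : ℝ => ζ + t • a) =
      fun t : ℝ => (-1 / c) * (Complex.reCLM ∘ fun s : ℝ => hh (ζ + s • a) u v) t := by
    funext t
    simp only [Function.comp, bergman_eq]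
    rfl
  rw [h7] at h3
  have h8 := h3.unique h6
  unfold metricDeriv
  rw [h8]
  simp only [zero_smul, add_zero, bergman_eq, Complex.reCLM_apply, Complex.add_re, mul_add,
    zero_add]

theorem secondForm_eq (h : IsHypersurface c U Ψ ξ) (hp : p ∈ U) (i j : Fin m) :
    secondForm c Ψ ξ p i j = bergman c (Ψ p) (FF Ψ i j p) (ξ p) := by
  have h1 := cov_normal_tangent h hp (ev i) (ev j)
  have h2 : bergman c (Ψ p) (FF Ψ i j p) (ξ p) =
      -bergman c (Ψ p) (cov Ψ (ev i) ξ p) (fderiv ℝ Ψ p (ev j)) := by linarith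
  have hb := h.mem_ball p hp
  rw [h2]
  unfold secondForm
  rw [Matrix.of_apply, metricDeriv_eq c hb, metricDeriv_eq c hb, metricDeriv_eq c hb]
  unfold cov
  rw [bg_add_left]
  have e1 : pd i Ψ p = fderiv ℝ Ψ p (ev i) := rfl
  have e2 : pd j Ψ p = fderiv ℝ Ψ p (ev j) := rfl
  have e3 : pd i ξ p = fderiv ℝ ξ p (ev i) := rfl
  rw [e1, e2, e3, Gt_symm (Ψ p) (ξ p) (fderiv ℝ Ψ p (ev i)),
    Gt_symm (Ψ p) (fderiv ℝ Ψ p (ev j)) (fderiv ℝ Ψ p (ev i)),
    Gt_symm (Ψ p) (fderiv ℝ Ψ p (ev j)) (ξ p),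
    bg_symm c (Ψ p) (ξ p) (Gt (Ψ p) (fderiv ℝ Ψ p (ev i)) (fderiv ℝ Ψ p (ev j)))]
  ring

/-- the shape operator -/
noncomputable def AA (c : ℝ) (Ψ ξ : (Fin m → ℝ) → Cn n) (p : Fin m → ℝ) :
    (Fin m → ℝ) →ₗ[ℝ] (Fin m → ℝ) := (shape c Ψ ξ p).mulVecLin

theorem AA_spec (hc : c < 0) (h : IsHypersurface c U Ψ ξ) (hp : p ∈ U) (v : Fin m → ℝ) :
    fderiv ℝ Ψ p (AA c Ψ ξ p v) = -cov Ψ v ξ p := by
  -- first on basis vectors
  have hb : ∀ i, fderiv ℝ Ψ p (AA c Ψ ξ p (ev i)) = -cov Ψ (ev i) ξ p := by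
    intro i
    obtain ⟨t, -, -, ht⟩ := exists_tan h hp
    have h1 := ht (-cov Ψ (ev i) ξ p)
    have h2 : bergman c (Ψ p) (-cov Ψ (ev i) ξ p) (ξ p) = 0 := by
      rw [bg_neg_left, cov_normal_normal h hp, neg_zero]
    have h3 : AA c Ψ ξ p (ev i) = t (-cov Ψ (ev i) ξ p) := by
      funext k
      rw [coef hc h hp h1 k]
      have h4 : AA c Ψ ξ p (ev i) k = shape c Ψ ξ p k i := by
        simp [AA, Matrix.mulVec_single]
      rw [h4, shape, Matrix.mul_apply]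
      refine Finset.sum_congr rfl fun l _ => ?_
      rw [secondForm_eq h hp, FF_symm h hp, bg_neg_left, cov_normal_tangent h hp, neg_neg]
    rw [h3]
    conv_rhs => rw [h1, h2, zero_smul, add_zero]
  conv_lhs => rw [vec_sum v]
  rw [map_sum, map_sum]
  have h5 : -cov Ψ v ξ p = ∑ i, v i • -cov Ψ (ev i) ξ p := by
    conv_lhs => rw [vec_sum v]
    have h6 : ∀ s : Finset (Fin m), cov Ψ (∑ i ∈ s, v i • ev i) ξ p =
        ∑ i ∈ s, v i • cov Ψ (ev i) ξ p := by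
      intro s
      classical
      induction s using Finset.induction_on with
      | empty =>
        simp only [Finset.sum_empty]
        have := cov_dir_smul (Ψ := Ψ) (X := ξ) (p := p) 0 0
        simpa using this
      | insert i s hi ih => rw [Finset.sum_insert hi, Finset.sum_insert hi, cov_dir_add,
          cov_dir_smul, ih]
    rw [h6, ← Finset.sum_neg_distrib]
    exact Finset.sum_congr rfl fun i _ => by rw [smul_neg]
  rw [h5]
  refine Finset.sum_congr rfl fun i _ => ?_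
  rw [map_smul, map_smul, hb]

end Pool.Agent.H61SP
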