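import Pool.Agent.H61SP.Conn

/-! Smoothness of the inverse matrix; the induced metric and its Levi-Civita connection. -/

set_option autoImplicit false

open scoped ContDiff ComplexConjugate Topology

namespace Pool.Agent.H61SP

section matrix

variable {m : ℕ} {p : Fin m → ℝ} {N : WithTop ℕ∞}

theorem contDiffAt_det {k : ℕ} {G : (Fin m → ℝ) → Matrix (Fin k) (Fin k) ℝ}
    (hG : ∀ i j, ContDiffAt ℝ N (fun q => G q i j) p) :
    ContDiffAt ℝ N (fun q => (G q).det) p := by
  simp only [Matrix.det_apply]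
  refine ContDiffAt.sum fun σ _ => ?_
  refine ContDiffAt.const_smul _ ?_
  exact contDiffAt_prod fun i _ => hG (σ i) i

theorem contDiffAt_inv_entry {G : (Fin m → ℝ) → Matrix (Fin m) (Fin m) ℝ}
    (hG : ∀ i j, ContDiffAt ℝ N (fun q => G q i j) p) (hdet : (G p).det ≠ 0) (k l : Fin m) :
    ContDiffAt ℝ N (fun q => (G q)⁻¹ k l) p := by
  have h1 : (fun q => (G q)⁻¹ k l) = fun q => ((G q).det)⁻¹ *
      ((G q).updateRow l (Pi.single k 1)).det := by
    funext q
    rw [Matrix.inv_def, Ring.inverse_eq_inv', Matrix.smul_apply, Matrix.adjugate_apply, smul_eq_mul]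
  rw [h1]
  refine ((contDiffAt_det hG).inv hdet).mul (contDiffAt_det fun i j => ?_)
  by_cases h : i = l
  · subst h
    simp only [Matrix.updateRow_self]
    exact contDiffAt_const
  · simp only [Matrix.updateRow_ne h]
    exact hG i j

end matrix

section bilinear

variable {n : ℕ} {c : ℝ}

theorem bg_symm (c : ℝ) (ζ u v : Cn n) : bergman c ζ u v = bergman c ζ v u := by
  rw [bergman_eq, bergman_eq, ← hh_conj ζ v u, Complex.conj_re]

theorem bg_add_left (c : ℝ) (ζ u u' v : Cn n) :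
    bergman c ζ (u + u') v = bergman c ζ u v + bergman c ζ u' v := by
  rw [bergman_eq, bergman_eq, bergman_eq, hh_add_left, Complex.add_re]
  ring

theorem bg_smul_left (c : ℝ) (ζ u v : Cn n) (a : ℝ) :
    bergman c ζ (a • u) v = a * bergman c ζ u v := by
  rw [bergman_eq, bergman_eq, ← Complex.coe_smul, hh_smul_left, Complex.conj_ofReal,
    Complex.re_ofReal_mul]
  ring

theorem bg_add_right (c : ℝ) (ζ u v v' : Cn n) :
    bergman c ζ u (v + v') = bergman c ζ u v + bergman c ζ u v' := by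
  rw [bg_symm, bg_add_left, bg_symm c ζ v, bg_symm c ζ v']

theorem bg_smul_right (c : ℝ) (ζ u v : Cn n) (a : ℝ) :
    bergman c ζ u (a • v) = a * bergman c ζ u v := by
  rw [bg_symm, bg_smul_left, bg_symm]

/-- the metric as a bilinear form -/
noncomputable def bgB (c : ℝ) (ζ : Cn n) : Cn n →ₗ[ℝ] Cn n →ₗ[ℝ] ℝ :=
  LinearMap.mk₂ ℝ (bergman c ζ) (bg_add_left c ζ) (fun a u v => bg_smul_left c ζ u v a)
    (bg_add_right c ζ) (fun a u v => bg_smul_right c ζ u v a)

@[simp] theorem bgB_apply (c : ℝ) (ζ u v : Cn n) : bgB c ζ u v = bergman c ζ u v := rfl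

theorem bg_neg_left (c : ℝ) (ζ u v : Cn n) : bergman c ζ (-u) v = -bergman c ζ u v := by
  rw [← bgB_apply, map_neg, LinearMap.neg_apply, bgB_apply]

theorem bg_neg_right (c : ℝ) (ζ u v : Cn n) : bergman c ζ u (-v) = -bergman c ζ u v := by
  rw [← bgB_apply, map_neg, bgB_apply]

theorem bg_sub_left (c : ℝ) (ζ u u' v : Cn n) :
    bergman c ζ (u - u') v = bergman c ζ u v - bergman c ζ u' v := by
  rw [sub_eq_add_neg, bg_add_left, bg_neg_left, sub_eq_add_neg]

theorem bg_sub_right (c : ℝ) (ζ u v v' : Cn n) :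
    bergman c ζ u (v - v') = bergman c ζ u v - bergman c ζ u v' := by
  rw [sub_eq_add_neg, bg_add_right, bg_neg_right, sub_eq_add_neg]

theorem bg_zero_left (c : ℝ) (ζ v : Cn n) : bergman c ζ 0 v = 0 := by
  rw [← bgB_apply, map_zero, LinearMap.zero_apply]

theorem bg_zero_right (c : ℝ) (ζ v : Cn n) : bergman c ζ v 0 = 0 := by
  rw [← bgB_apply, map_zero]

theorem bg_I_left (c : ℝ) (ζ u v : Cn n) :
    bergman c ζ (Complex.I • u) v = -bergman c ζ u (Complex.I • v) := by
  rw [bergman_eq, bergman_eq, hh_smul_left, hh_smul_right, Complex.conj_I, neg_mul, Complex.neg_re]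
  ring

theorem bg_I_I (c : ℝ) (ζ u v : Cn n) :
    bergman c ζ (Complex.I • u) (Complex.I • v) = bergman c ζ u v := by
  rw [bg_I_left, smul_smul, Complex.I_mul_I, neg_one_smul, bg_neg_right, neg_neg]

theorem bg_I_self (c : ℝ) (ζ u : Cn n) : bergman c ζ u (Complex.I • u) = 0 := by
  have h1 := bg_I_left c ζ u u
  have h2 := bg_symm c ζ (Complex.I • u) u
  linarith

theorem bg_pos (hc : c < 0) {ζ : Cn n} (hζ : ‖ζ‖ < 1) {u : Cn n} (hu : u ≠ 0) :
    0 < bergman c ζ u u := by
  have hρ : 0 < 1 - ‖ζ‖ ^ 2 := by nlinarith [norm_nonneg ζ]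
  have hu' : 0 < ‖u‖ := norm_pos_iff.2 hu
  unfold bergman
  have h1 : (inner ℂ u u : ℂ).re = ‖u‖ ^ 2 := by
    rw [inner_self_eq_norm_sq_to_K]
    norm_cast
  have h2 : 0 ≤ (inner ℂ u ζ * inner ℂ ζ u : ℂ).re := by
    rw [← inner_conj_symm u ζ, ← Complex.normSq_eq_conj_mul_self, Complex.ofReal_re]
    exact Complex.normSq_nonneg _
  rw [h1]
  have h3 : 0 < -1 / c := div_pos_of_neg_of_neg (by norm_num) hc
  have h4 : 0 < (1 - ‖ζ‖ ^ 2) * ‖u‖ ^ 2 + (inner ℂ u ζ * inner ℂ ζ u : ℂ).re := by positivity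
  positivity

/-- real form of the curvature -/
theorem Rt_real (hc : c ≠ 0) (ζ u v w : Cn n) : Rt ζ u v w =
    c • (bergman c ζ v w • u - bergman c ζ u w • v + bergman c ζ (Complex.I • v) w • (Complex.I • u)
      - bergman c ζ (Complex.I • u) w • (Complex.I • v)
      - (2 * bergman c ζ (Complex.I • u) v) • (Complex.I • w)) := by
  have h1 : ∀ a b : Cn n, hh ζ a b = ((-c * bergman c ζ a b : ℝ) : ℂ) +
      ((-c * bergman c ζ (Complex.I • a) b : ℝ) : ℂ) * Complex.I := by
    intro a b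
    have e1 : -c * bergman c ζ a b = (hh ζ a b).re := by
      rw [bergman_eq]; field_simp
    have e2 : -c * bergman c ζ (Complex.I • a) b = (hh ζ a b).im := by
      rw [bergman_eq, hh_smul_left, Complex.conj_I]
      simp
      field_simp
    rw [e1, e2, Complex.re_add_im]
  unfold Rt
  have h2 : bergman c ζ (Complex.I • v) u = -bergman c ζ (Complex.I • u) v := by
    rw [bg_I_left, bg_symm c ζ v]
  rw [h1 u v, h1 v u, h1 u w, h1 v w, h2, bg_symm c ζ v u]
  simp only [← Complex.coe_smul]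
  push_cast
  module

end bilinear

end Pool.Agent.H61SP
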