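import Pool.Agent.H61SP.Fin

/-!
# No real hypersurface of complex hyperbolic space is semi-parallel

For every `n ≥ 2` and every `c < 0`, the tensor `R · A` of a real hypersurface of `ℂH^n` does not
vanish identically on any nonempty open subset. All definitions are in `Pool/Agent/H61SP/Defs.lean`.

Proof. `R · A = 0` at a point says that the curvature operators preserve the eigenspaces of `A`, so
that `R(Z, U) = 0` for eigenvectors with different eigenvalues. By the Gauss equation, different
eigenspaces are then `φ`-orthogonal, so `A` commutes with `φ`, the structure vector `W` is principal,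
`A W = a W`, and `A = μ` on the orthogonal complement of `W`, with `(a - μ) (a μ + c) = 0`. The Codazzi
equation for `W` and a vector orthogonal to `W` gives `(a - μ) μ = -c`, a contradiction.
-/

namespace Pool.Agent.Results.MP_e17017_gt.NoSemiParallel

open Pool.Agent.H61SP

/-- Let `n ≥ 2`, `c < 0` and let `Ψ : U → ℂH^n` (holomorphic sectional curvature `4c`) be an immersed
real hypersurface with unit normal `ξ`, `U` a nonempty open subset of `ℝ^{2n-1}`. Then `R · A` does
not vanish identically on `U`. -/
theorem result {m n : ℕ} (hn : 2 ≤ n) {c : ℝ} (hc : c < 0) {U : Set (Fin m → ℝ)}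
    {Ψ ξ : (Fin m → ℝ) → Cn n} (h : IsHypersurface c U Ψ ξ) :
    ∃ p ∈ U, ¬ SemiParallelAt c Ψ ξ p := by
  have h1 := no_semiparallel hn hc h
  push Not at h1
  exact h1

end Pool.Agent.Results.MP_e17017_gt.NoSemiParallel
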